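import Pool.Agent.QC.Defs

/-!
# MP_7c50a9_lc: real points, derivatives of real polynomial functions

`qpolR p`, `f0R q`: the real polynomials; `map` to the complex ones; derivatives of the functions
`x ↦ eval x P`; real critical zeros of `prod P_m - 1` are singular points of `f0 (tC q)`.
-/

namespace Pool.Agent.QC.Red

open MvPolynomial

/-- Derivative of a polynomial function. -/
theorem hasStrictFDerivAt_eval {m : ℕ} (P : MvPolynomial (Fin m) ℝ) (x : Fin m → ℝ) :
    HasStrictFDerivAt (fun x => eval x P)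
      (∑ i, (eval x (pderiv i P)) • (ContinuousLinearMap.proj i : (Fin m → ℝ) →L[ℝ] ℝ)) x := by
  induction P using MvPolynomial.induction_on with
  | C a =>
    simp only [eval_C, pderiv_C, map_zero, zero_smul, Finset.sum_const_zero]
    exact hasStrictFDerivAt_const a x
  | add P Q hP hQ =>
    simp only [map_add, add_smul, Finset.sum_add_distrib]
    exact hP.add hQ
  | mul_X P j hP =>
    have hX : HasStrictFDerivAt (fun x : Fin m → ℝ => x j)
        (ContinuousLinearMap.proj j : (Fin m → ℝ) →L[ℝ] ℝ) x :=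
      (ContinuousLinearMap.proj (R := ℝ) (φ := fun _ : Fin m => ℝ) j).hasStrictFDerivAt
    have h := hP.mul hX
    have h1 : (fun x : Fin m → ℝ => eval x (P * X j)) = fun x => eval x P * x j := by
      funext y
      simp
    have h2 : (∑ i, (eval x (pderiv i (P * X j))) •
        (ContinuousLinearMap.proj i : (Fin m → ℝ) →L[ℝ] ℝ)) =
        eval x P • (ContinuousLinearMap.proj j : (Fin m → ℝ) →L[ℝ] ℝ) +
        x j • ∑ i, (eval x (pderiv i P)) • (ContinuousLinearMap.proj i : (Fin m → ℝ) →L[ℝ] ℝ) := by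
      have h3 : ∀ i, eval x (pderiv i (P * X j)) =
          (if i = j then eval x P else 0) + x j * eval x (pderiv i P) := by
        intro i
        rw [Derivation.leibniz, pderiv_X]
        by_cases hij : i = j
        · subst hij
          simp
        · simp [hij]
      simp only [h3, add_smul, Finset.sum_add_distrib, ite_smul, zero_smul, mul_smul,
        Finset.smul_sum, Finset.sum_ite_eq', Finset.mem_univ, if_true]
    rw [h1, h2]
    exact h

theorem contDiff_eval {m : ℕ} (P : MvPolynomial (Fin m) ℝ) {k : WithTop ℕ∞} :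
    ContDiff ℝ k (fun x : Fin m → ℝ => eval x P) := by
  induction P using MvPolynomial.induction_on with
  | C a => simpa using contDiff_const
  | add P Q hP hQ => simpa using hP.add hQ
  | mul_X P j hP => simpa using hP.mul (contDiff_apply ℝ ℝ j)

theorem fderiv_eval {m : ℕ} (P : MvPolynomial (Fin m) ℝ) (x : Fin m → ℝ) :
    fderiv ℝ (fun x => eval x P) x =
      ∑ i, (eval x (pderiv i P)) • (ContinuousLinearMap.proj i : (Fin m → ℝ) →L[ℝ] ℝ) :=
  (hasStrictFDerivAt_eval P x).hasFDerivAt.fderiv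

theorem fderiv_eval_single {m : ℕ} (P : MvPolynomial (Fin m) ℝ) (x : Fin m → ℝ) (i : Fin m) :
    fderiv ℝ (fun x => eval x P) x (Pi.single i 1) = eval x (pderiv i P) := by
  rw [fderiv_eval]
  simp only [sum_apply, smul_apply, ContinuousLinearMap.proj_apply, smul_eq_mul]
  rw [Finset.sum_eq_single i]
  · simp
  · intro j _ hj
    simp [Pi.single_eq_of_ne hj]
  · simp

/-- The real polynomial of a real quadratic polynomial. -/
noncomputable def qpolR {N : ℕ} (p : QP ℝ N) : MvPolynomial (Fin N) ℝ :=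
  (∑ i, ∑ j, C (p.1 i j) * X i * X j) + (∑ i, C (p.2.1 i) * X i) + C p.2.2

theorem eval_qpolR {N : ℕ} (p : QP ℝ N) (x : Fin N → ℝ) : eval x (qpolR p) = qvR p x := by
  simp [qpolR, qvR, map_sum]

/-- The real polynomial `prod P_m - 1`. -/
noncomputable def f0R {n l : ℕ} (q : RTup n l) : MvPolynomial (Fin (n + 1)) ℝ :=
  (∏ m, qpolR (q m)) - 1

theorem eval_f0R {n l : ℕ} (q : RTup n l) (x : Fin (n + 1) → ℝ) :
    eval x (f0R q) = (∏ m, qvR (q m) x) - 1 := by
  simp [f0R, map_prod, eval_qpolR]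

theorem map_qpolR {n l : ℕ} (q : RTup n l) (m : Fin (l + 1)) :
    map Complex.ofRealHom (qpolR (q m)) = qpol (tC q m) := by
  simp [qpolR, qpol, tC, map_sum]

theorem map_f0R {n l : ℕ} (q : RTup n l) : map Complex.ofRealHom (f0R q) = f0 (tC q) := by
  simp [f0R, f0, prodT, map_prod, map_qpolR]

theorem eval_map_ofReal {m : ℕ} (P : MvPolynomial (Fin m) ℝ) (x : Fin m → ℝ) :
    eval (fun i => (x i : ℂ)) (map Complex.ofRealHom P) = ((eval x P : ℝ) : ℂ) := by
  rw [eval_map]
  have := eval₂_comp_left Complex.ofRealHom (RingHom.id ℝ) x P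
  simp only [RingHom.comp_id] at this
  exact this.symm

theorem eval_f0 {n l : ℕ} (q : RTup n l) (x : Fin (n + 1) → ℝ) :
    eval (fun i => (x i : ℂ)) (f0 (tC q)) = (((∏ m, qvR (q m) x) - 1 : ℝ) : ℂ) := by
  rw [← map_f0R, eval_map_ofReal, eval_f0R]

theorem eval_pderiv_f0 {n l : ℕ} (q : RTup n l) (x : Fin (n + 1) → ℝ) (i : Fin (n + 1)) :
    eval (fun i => (x i : ℂ)) (pderiv i (f0 (tC q))) =
      ((fderiv ℝ (fun x => ∏ m, qvR (q m) x) x (Pi.single i 1) : ℝ) : ℂ) := by
  rw [← map_f0R, pderiv_map, eval_map_ofReal]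
  congr 1
  have h : (fun x => ∏ m, qvR (q m) x) = fun x => eval x (f0R q) + 1 := by
    funext y
    rw [eval_f0R]
    ring
  rw [h, fderiv_add_const, fderiv_eval_single]

/-- Real singular points. -/
theorem mem_SingF_of_real {n l : ℕ} (q : RTup n l) (x : Fin (n + 1) → ℝ)
    (h1 : ∏ m, qvR (q m) x = 1) (h2 : fderiv ℝ (fun x => ∏ m, qvR (q m) x) x = 0) :
    (fun i => (x i : ℂ)) ∈ SingF (f0 (tC q)) := by
  refine ⟨?_, fun i => ?_⟩
  · rw [eval_f0, h1]
    simp
  · rw [eval_pderiv_f0, h2]
    simp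

theorem contDiff_qvR {N : ℕ} (p : QP ℝ N) {k : WithTop ℕ∞} : ContDiff ℝ k (qvR p) := by
  have : qvR p = fun x => eval x (qpolR p) := by
    funext x
    rw [eval_qpolR]
  rw [this]
  exact contDiff_eval _

end Pool.Agent.QC.Red
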