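import Pool.Agent.QC.Red.Top
import Pool.Agent.QC.S4.Local

/-!
# MP_7c50a9_lc, section 1.1: regular one-parameter families of product sets

`W = {x : all p_m(x) > 0, prod p_m(x) > rho}` along a path on which the `p_m` increase, `rho`
decreases and the level set is regular: the components do not change.
-/

namespace Pool.Agent.QC.Red

open Set Topology Filter

set_option linter.unusedSectionVars false

section Path

variable {E : Type*} [NormedAddCommGroup E] [NormedSpace ℝ E] {ι : Type*} [Fintype ι]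

/-- `{x : all p_m(x) > 0, prod p_m(x) > rho}` -/
def WP (p : ι → E → ℝ) (r : ℝ) : Set E := {x | (∀ m, 0 < p m x) ∧ r < ∏ m, p m x}

/-- `{x : all p_m(x) ≥ 0, prod p_m(x) ≥ rho}` -/
def KP (p : ι → E → ℝ) (r : ℝ) : Set E := {x | (∀ m, 0 ≤ p m x) ∧ r ≤ ∏ m, p m x}

/-- `{x : all p_m(x) > 0}` -/
def OP (p : ι → E → ℝ) : Set E := {x | ∀ m, 0 < p m x}

theorem isOpen_OP {p : ι → E → ℝ} (h : ∀ m, Continuous (p m)) : IsOpen (OP p) := by
  have : OP p = ⋂ m, {x | 0 < p m x} := by
    ext x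
    simp [OP]
  rw [this]
  exact isOpen_iInter_of_finite fun m => isOpen_lt continuous_const (h m)

theorem isOpen_WP {p : ι → E → ℝ} (h : ∀ m, Continuous (p m)) (r : ℝ) : IsOpen (WP p r) :=
  (isOpen_OP h).inter (isOpen_lt continuous_const (continuous_finsetProd _ fun m _ => h m))

theorem isClosed_KP {p : ι → E → ℝ} (h : ∀ m, Continuous (p m)) (r : ℝ) : IsClosed (KP p r) := by
  have : KP p r = (⋂ m, {x | 0 ≤ p m x}) ∩ {x | r ≤ ∏ m, p m x} := by
    ext x
    simp [KP]
  rw [this]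
  exact (isClosed_iInter fun m => isClosed_le continuous_const (h m)).inter
    (isClosed_le continuous_const (continuous_finsetProd _ fun m _ => h m))

theorem pos_of_mem_KP {p : ι → E → ℝ} {r : ℝ} (hr : 0 < r) {x : E} (hx : x ∈ KP p r) (m : ι) :
    0 < p m x := by
  rcases (hx.1 m).eq_or_lt with h0 | h0
  · exfalso
    have : ∏ m, p m x = 0 := Finset.prod_eq_zero (Finset.mem_univ m) h0.symm
    have h2 := hx.2
    rw [this] at h2
    linarith
  · exact h0

/-- The level set `prod p_m = r` in `{p > 0}` is regular. -/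
def RegP (p : ι → E → ℝ) (r : ℝ) : Prop :=
  ∀ x, (∀ m, 0 < p m x) → ∏ m, p m x = r → fderiv ℝ (fun x => ∏ m, p m x) x ≠ 0

/-- Regular points of the boundary. -/
theorem locConn_WP {p : ι → E → ℝ} (hd : ∀ m, ContDiff ℝ 1 (p m)) {r : ℝ} (hr : 0 < r)
    (hreg : RegP p r) {x : E} (hx : x ∈ KP p r \ WP p r) : S4.LocConn (WP p r) x := by
  have hpos : ∀ m, 0 < p m x := pos_of_mem_KP hr hx.1
  have heq : ∏ m, p m x = r := by
    refine le_antisymm (not_lt.mp fun hlt => hx.2 ⟨hpos, hlt⟩) hx.1.2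
  have hprod : ContDiff ℝ 1 (fun x => ∏ m, p m x) := contDiff_prod fun m _ => hd m
  have hstrict : HasStrictFDerivAt (fun y => ∏ m, p m y - r) (fderiv ℝ (fun x => ∏ m, p m x) x) x :=
    (hprod.contDiffAt.hasStrictFDerivAt one_ne_zero).sub_const r
  have h0 := S4.locConn_of_regular hstrict (hreg x hpos heq) (by simp [heq])
  intro U hU
  have hOP : OP p ∈ 𝓝 x := (isOpen_OP fun m => (hd m).continuous).mem_nhds hpos
  obtain ⟨N, hN, hxN, hNU, hNc⟩ := h0 (U ∩ OP p) (inter_mem hU hOP)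
  refine ⟨N, hN, hxN, hNU.trans inter_subset_left, ?_⟩
  have : WP p r ∩ N = {y | 0 < ∏ m, p m y - r} ∩ N := by
    ext y
    constructor
    · rintro ⟨hy, hyN⟩
      exact ⟨by simpa using hy.2, hyN⟩
    · rintro ⟨hy, hyN⟩
      exact ⟨⟨(hNU hyN).2, by simpa using hy⟩, hyN⟩
  rw [this]
  exact hNc

/-- Regular paths. -/
theorem piBij_of_path (p : ι → ℝ → E → ℝ) (ρ : ℝ → ℝ) {s₀ s₁ : ℝ}
    (hle : s₀ ≤ s₁)
    (hcont : ∀ m, Continuous (fun z : ℝ × E => p m z.1 z.2)) (hρc : Continuous ρ)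
    (hρ : ∀ s ∈ Icc s₀ s₁, 0 < ρ s)
    (hmono : ∀ s ∈ Icc s₀ s₁, ∀ t ∈ Icc s₀ s₁, s < t → ∀ x, (∀ m, 0 < p m s x) →
      (∀ m, 0 < p m t x) ∧ (∏ m, p m s x) * ρ t < (∏ m, p m t x) * ρ s)
    (hcpt : ∀ s ∈ Icc s₀ s₁, IsCompact {x | ∀ m, 0 ≤ p m s x})
    (hdiff : ∀ m s, ContDiff ℝ 1 (p m s))
    (hreg : ∀ s ∈ Icc s₀ s₁, RegP (fun m => p m s) (ρ s)) :
    PiBij (WP (fun m => p m s₀) (ρ s₀)) (WP (fun m => p m s₁) (ρ s₁)) := by
  have hcm : ∀ m s, Continuous (p m s) := fun m s => (hdiff m s).continuous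
  have hcs : ∀ m x, Continuous (fun s => p m s x) := fun m x =>
    (hcont m).comp (Continuous.prodMk_left x)
  have hfam : S4.MonoFam s₀ s₁ (fun s => WP (fun m => p m s) (ρ s))
      (fun s => KP (fun m => p m s) (ρ s)) := by
    refine ⟨hle, fun s _ => isOpen_WP (fun m => hcm m s) _, fun s hs => ?_, fun s _ x hx => ?_,
      fun s hs t ht hst x hx => ?_, fun s hs x hx => ?_, fun s hs x hx => ?_⟩
    · exact (hcpt s hs).of_isClosed_subset (isClosed_KP (fun m => hcm m s) _) fun x hx => hx.1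
    · exact ⟨fun m => (hx.1 m).le, hx.2.le⟩
    · have hpos := pos_of_mem_KP (hρ s hs) hx
      obtain ⟨h1, h2⟩ := hmono s hs t ht hst x hpos
      refine ⟨h1, ?_⟩
      have h3 : ρ s * ρ t ≤ (∏ m, p m s x) * ρ t := mul_le_mul_of_nonneg_right hx.2 (hρ t ht).le
      have h4 : ρ t * ρ s < (∏ m, p m t x) * ρ s := by
        calc ρ t * ρ s = ρ s * ρ t := mul_comm _ _
          _ ≤ _ := h3
          _ < _ := h2
      exact lt_of_mul_lt_mul_right h4 (hρ s hs).le
    · have h1 : ∀ᶠ r in 𝓝 s, x ∈ WP (fun m => p m r) (ρ r) := by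
        have ha : ∀ᶠ r in 𝓝 s, ∀ m, 0 < p m r x := by
          rw [eventually_all]
          intro m
          exact ((hcs m x).tendsto s).eventually (lt_mem_nhds (hx.1 m))
        have hb : ∀ᶠ r in 𝓝 s, ρ r < ∏ m, p m r x := by
          have hc : Continuous fun r => (∏ m, p m r x) - ρ r :=
            (continuous_finsetProd _ fun m _ => hcs m x).sub hρc
          have := (hc.tendsto s).eventually (lt_mem_nhds (by simpa using hx.2 :
            (0 : ℝ) < (∏ m, p m s x) - ρ s))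
          filter_upwards [this] with r hr
          simpa using hr
        filter_upwards [ha, hb] with r h1 h2
        exact ⟨h1, h2⟩
      have h2 : ∀ᶠ r in 𝓝[<] s, r ∈ Ico s₀ s :=
        Ico_mem_nhdsLT hs.1
      obtain ⟨r, hr1, hr2⟩ := ((h1.filter_mono nhdsWithin_le_nhds).and h2).exists
      exact ⟨r, hr2, fun m => (hr1.1 m).le, hr1.2.le⟩
    · have h2 : ∀ᶠ r in 𝓝[>] s, r ∈ Ioc s s₁ := Ioc_mem_nhdsGT hs.2
      constructor
      · intro m
        refine ge_of_tendsto (x := 𝓝[>] s)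
          (((hcs m x).tendsto s).mono_left nhdsWithin_le_nhds) ?_
        filter_upwards [h2] with r hr
        exact (hx r hr).1 m
      · have hc : Continuous fun r => (∏ m, p m r x) - ρ r :=
          (continuous_finsetProd _ fun m _ => hcs m x).sub hρc
        have : 0 ≤ (∏ m, p m s x) - ρ s := by
          refine ge_of_tendsto (x := 𝓝[>] s) ((hc.tendsto s).mono_left nhdsWithin_le_nhds) ?_
          filter_upwards [h2] with r hr
          exact sub_nonneg.mpr (hx r hr).2
        exact sub_nonneg.mp this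
  have hR : S4.RegularOn s₀ s₁ (fun s => WP (fun m => p m s) (ρ s))
      (fun s => KP (fun m => p m s) (ρ s)) := fun s hs x hx =>
    locConn_WP (fun m => hdiff m s) (hρ s ⟨hs.1, hs.2.le⟩) (hreg s ⟨hs.1, hs.2.le⟩) hx
  refine ⟨hfam.mono ⟨le_rfl, hle⟩ ⟨hle, le_rfl⟩ hle, fun x hx => hfam.regular_exists hR hx,
    fun a ha b hb hab => hfam.regular_unique hR ha hb hab⟩

end Path

section Union

variable {E : Type*} [TopologicalSpace E] [LocallyPathConnectedSpace E]

/-- Increasing unions. -/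
theorem piBij_iUnion {W : ℝ → Set E} {O : Set E} {r0 : ℝ}
    (hopen : ∀ r, 0 < r → IsOpen (W r)) (hOo : IsOpen O)
    (hsub : ∀ r, 0 < r → W r ⊆ O) (hO : ∀ x ∈ O, ∃ r > 0, x ∈ W r)
    (hanti : ∀ r r', 0 < r' → r' ≤ r → W r ⊆ W r')
    (h : ∀ r r', 0 < r' → r' ≤ r → r < r0 → PiBij (W r) (W r')) {r : ℝ} (hr : 0 < r)
    (hr0 : r < r0) : PiBij (W r) O := by
  refine ⟨hsub r hr, fun x hx => ?_, fun a ha b hb hab => ?_⟩
  · obtain ⟨r', hr', hxr'⟩ := hO x hx
    have hm : 0 < min r r' := lt_min hr hr'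
    obtain ⟨y, hy, hyx⟩ := (h r (min r r') hm (min_le_left _ _) hr0).surj x
      (hanti r' _ hm (min_le_right _ _) hxr')
    exact ⟨y, hy, connectedComponentIn_mono x (hsub _ hm) hyx⟩
  · have haO : a ∈ O := hsub r hr ha
    have hop : IsOpen (connectedComponentIn O a) := hOo.connectedComponentIn
    have hcon : IsConnected (connectedComponentIn O a) :=
      isConnected_connectedComponentIn_iff.mpr haO
    have hpc : IsPathConnected (connectedComponentIn O a) :=
      (hop.isConnected_iff_isPathConnected).mp hcon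
    obtain ⟨γ, hγ⟩ := hpc.joinedIn a (mem_connectedComponentIn haO) b hab
    have hcomp : IsCompact (range γ) := isCompact_range γ.continuous
    have : Nonempty (Ioc 0 r) := ⟨⟨r, hr, le_rfl⟩⟩
    obtain ⟨r', hr'⟩ := hcomp.elim_directed_cover (fun r' : Ioc 0 r => W r')
      (fun r' => hopen r' r'.2.1)
      (by
        rintro x ⟨u, rfl⟩
        obtain ⟨t, ht, hxt⟩ := hO _ (cc_mem (hγ u))
        have hm : 0 < min r t := lt_min hr ht
        exact mem_iUnion.mpr ⟨⟨min r t, hm, min_le_left _ _⟩, hanti t _ hm (min_le_right _ _) hxt⟩)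
      (by
        intro s t
        have hm : 0 < min s.1 t.1 := lt_min s.2.1 t.2.1
        exact ⟨⟨min s.1 t.1, hm, (min_le_left _ _).trans s.2.2⟩,
          hanti _ _ hm (min_le_left _ _), hanti _ _ hm (min_le_right _ _)⟩)
    have hpre : IsPreconnected (range γ) := isPreconnected_range γ.continuous
    have hb' : b ∈ connectedComponentIn (W r') a :=
      hpre.subset_connectedComponentIn ⟨0, γ.source⟩ hr' ⟨1, γ.target⟩
    exact (h r r' r'.2.1 r'.2.2 hr0).inj a ha b hb hb'

end Union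

section Finite

variable {E : Type*} [TopologicalSpace E] [LocallyConnectedSpace E]

/-- Finitely many components. -/
theorem finite_components {W K : Set E} (hW : IsOpen W) (hK : IsCompact K) (hWK : W ⊆ K)
    (hloc : ∀ x ∈ K \ W, S4.LocConn W x) : Finite (ConnectedComponents W) := by
  have h : ∀ x ∈ K, ∃ N : Set E, IsOpen N ∧ x ∈ N ∧ IsPreconnected (W ∩ N) := by
    intro x hx
    by_cases hxW : x ∈ W
    · refine ⟨connectedComponentIn W x, hW.connectedComponentIn, mem_connectedComponentIn hxW, ?_⟩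
      rw [inter_eq_self_of_subset_right (connectedComponentIn_subset _ _)]
      exact isPreconnected_connectedComponentIn
    · obtain ⟨N, hN, hxN, -, hc⟩ := hloc x ⟨hx, hxW⟩ univ univ_mem
      exact ⟨N, hN, hxN, hc.isPreconnected⟩
  choose! N hNo hxN hNc using h
  obtain ⟨t, hcov⟩ := hK.elim_nhds_subcover' (fun x _ => N x)
    (fun x hx => (hNo x hx).mem_nhds (hxN x hx))
  have key : ∀ c : ConnectedComponents W, ∃ i : t, ∃ p : W, ConnectedComponents.mk p = c ∧
      p.1 ∈ N i.1 := by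
    intro c
    obtain ⟨p, rfl⟩ := ConnectedComponents.surjective_coe c
    obtain ⟨i, hi, hpi⟩ := mem_iUnion₂.mp (hcov (hWK p.2))
    exact ⟨⟨i, hi⟩, p, rfl, hpi⟩
  choose i p hp hpN using key
  refine Finite.of_injective i fun c c' hcc => ?_
  have hiK : (i c).1.1 ∈ K := (i c).1.2
  have h1 : (p c).1 ∈ W ∩ N (i c).1 := ⟨(p c).2, hpN c⟩
  have h2 : (p c').1 ∈ W ∩ N (i c).1 := ⟨(p c').2, by rw [hcc]; exact hpN c'⟩
  have h3 := (hNc _ hiK).subset_connectedComponentIn h1 inter_subset_left h2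
  have h4 := (mk_eq_mk_iff (p c).2 (p c').2).2 h3
  rw [← hp c, ← hp c']
  exact h4

end Finite

end Pool.Agent.QC.Red
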