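import Pool.Agent.QC.Rec

/-!
# MP_7c50a9_lc, section 1.1: the base tuple and the perturbed tuple

For a nonzero polynomial `Phi` in the coefficients of tuples there are integral quadratic
polynomials `N1, G_1, ..., G_l >= 1 + |x|^2` such that `Phi` does not vanish at `(-1 - N1, G)` and
at `(1 - N1, G)`; the values of `Phi` at the perturbed tuples are given by a nonzero polynomial in
the three small parameters.
-/

namespace Pool.Agent.QC.Red

open MvPolynomial Set Pool.Agent.QC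

variable {n l : ℕ}

/-- The index type of the coefficients of one polynomial. -/
abbrev IQ (N : ℕ) := (Fin N × Fin N) ⊕ (Fin N ⊕ Unit)

/-- `1 + |x|^2`. -/
def sq1 {N : ℕ} (x : Fin N → ℝ) : ℝ := 1 + ∑ i, x i ^ 2

/-- A real quadratic polynomial which is at least `1 + |x|^2`. -/
def BigQ {N : ℕ} (p : QP ℝ N) : Prop := ∀ x, sq1 x ≤ qvR p x

/-- The substitution `(N1, G) ↦ (c - N1, G)` on coefficients. -/
noncomputable def subC (n l : ℕ) (c : ℂ) (z : Ix n l) : MvPolynomial (Ix n l) ℂ :=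
  if z.1 = 0 then (if z.2 = Sum.inr (Sum.inr ()) then C c else 0) - X z else X z

theorem eval_bind {σ τ : Type*} (v : τ → ℂ) (f : σ → MvPolynomial τ ℂ) (Φ : MvPolynomial σ ℂ) :
    eval v (bind₁ f Φ) = eval (fun i => eval v (f i)) Φ := by
  rw [eval, eval₂Hom_bind₁]
  rfl

theorem eval_subC (c : ℂ) (y : Ix n l → ℂ) (z : Ix n l) : eval y (subC n l c z) =
    if z.1 = 0 then (if z.2 = Sum.inr (Sum.inr ()) then c else 0) - y z else y z := by
  simp only [subC]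
  split_ifs <;> simp

theorem bind_subC_ne {Φ : MvPolynomial (Ix n l) ℂ} (hΦ : Φ ≠ 0) (c : ℂ) :
    bind₁ (subC n l c) Φ ≠ 0 := by
  intro h
  refine hΦ (MvPolynomial.funext fun y => ?_)
  rw [map_zero]
  have h1 : eval (fun z : Ix n l => if z.1 = 0 then
      (if z.2 = Sum.inr (Sum.inr ()) then c else 0) - y z else y z)
      (bind₁ (subC n l c) Φ) = 0 := by
    rw [h, map_zero]
  rw [eval_bind] at h1
  rw [← h1]
  congr 2
  funext z
  rw [eval_subC]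
  split_ifs <;> ring

/-- The coefficients of `M (1 + |x|^2)`. -/
def bas (M : ℤ) {N : ℕ} : IQ N → ℤ :=
  Sum.elim (fun x => if x.1 = x.2 then M else 0) (Sum.elim (fun _ => 0) fun _ => M)

/-- The quadratic polynomial with given coefficients in any ring. -/
def toR {R : Type*} {N : ℕ} (z : IQ N → R) : QP R N :=
  (fun i j => z (Sum.inl (i, j)), fun i => z (Sum.inr (Sum.inl i)), z (Sum.inr (Sum.inr ())))

theorem one_le_sq1 {N : ℕ} (x : Fin N → ℝ) : 1 ≤ sq1 x := by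
  have : 0 ≤ ∑ i, x i ^ 2 := Finset.sum_nonneg fun i _ => sq_nonneg _
  unfold sq1
  linarith

theorem sq_le_sq1 {N : ℕ} (x : Fin N → ℝ) (i : Fin N) : x i ^ 2 ≤ sq1 x - 1 := by
  have : x i ^ 2 ≤ ∑ i, x i ^ 2 :=
    Finset.single_le_sum (f := fun i => x i ^ 2) (fun i _ => sq_nonneg _) (Finset.mem_univ i)
  unfold sq1
  linarith

theorem neg_le_mul {k D s y : ℝ} (hk : 0 ≤ k) (hD : k ≤ D) (hs : 0 ≤ s) (hy : -s ≤ y) :
    -(D * s) ≤ k * y := by
  nlinarith [mul_nonneg hk hs, mul_le_mul_of_nonneg_left hy hk,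
    mul_le_mul_of_nonneg_right hD hs]

theorem bigQ_of_box {n : ℕ} {D : ℕ} {M : ℤ}
    (hM : 1 + D * ((n + 1 : ℕ) * (n + 1 : ℕ) + (n + 1 : ℕ) + 1) ≤ M)
    {k : IQ (n + 1) → ℕ} (hk : ∀ z, k z ≤ D) :
    BigQ (qZR (toR fun z => bas M z + (k z : ℤ))) := by
  classical
  intro x
  have h1 := one_le_sq1 x
  have hk' : ∀ z, (k z : ℝ) ≤ D := fun z => by exact_mod_cast hk z
  have hM' : (1 : ℝ) + D * (((n + 1 : ℕ) : ℝ) * ((n + 1 : ℕ) : ℝ) + ((n + 1 : ℕ) : ℝ) + 1) ≤ M := by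
    exact_mod_cast hM
  have hval : qvR (qZR (toR fun z => bas M z + (k z : ℤ))) x =
      M * sq1 x + (∑ i, ∑ j, (k (Sum.inl (i, j)) : ℝ) * (x i * x j)) +
        (∑ i, (k (Sum.inr (Sum.inl i)) : ℝ) * x i) + k (Sum.inr (Sum.inr ())) := by
    simp only [qvR, qZR, toR, bas, sq1, Sum.elim_inl, Sum.elim_inr, Int.cast_add,
      Int.cast_natCast, zero_add]
    have h2 : ∑ i, ∑ j, (((if i = j then M else 0 : ℤ) : ℝ) + (k (Sum.inl (i, j)) : ℝ)) *
        x i * x j = M * ∑ i, x i ^ 2 + ∑ i, ∑ j, (k (Sum.inl (i, j)) : ℝ) * (x i * x j) := by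
      rw [Finset.mul_sum, ← Finset.sum_add_distrib]
      refine Finset.sum_congr rfl fun i _ => ?_
      have h3 : ∀ j, (((if i = j then M else 0 : ℤ) : ℝ) + (k (Sum.inl (i, j)) : ℝ)) *
          x i * x j = (if i = j then (M : ℝ) * (x i * x j) else 0) +
            (k (Sum.inl (i, j)) : ℝ) * (x i * x j) := by
        intro j
        split_ifs <;> push_cast <;> ring
      simp only [h3]
      rw [Finset.sum_add_distrib, Finset.sum_ite_eq, if_pos (Finset.mem_univ i)]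
      ring
    rw [h2]
    ring
  rw [hval]
  have hs0 : 0 ≤ sq1 x := by linarith
  have h4 : -(((n + 1 : ℕ) : ℝ) * (((n + 1 : ℕ) : ℝ) * (D * sq1 x))) ≤
      ∑ i, ∑ j, (k (Sum.inl (i, j)) : ℝ) * (x i * x j) := by
    have : ∑ i : Fin (n + 1), ∑ j : Fin (n + 1), (-(D * sq1 x)) ≤
        ∑ i, ∑ j, (k (Sum.inl (i, j)) : ℝ) * (x i * x j) := by
      refine Finset.sum_le_sum fun i _ => Finset.sum_le_sum fun j _ => ?_
      refine neg_le_mul (Nat.cast_nonneg _) (hk' _) hs0 ?_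
      nlinarith [sq_le_sq1 x i, sq_le_sq1 x j, sq_nonneg (x i + x j)]
    simpa using this
  have h5 : -(((n + 1 : ℕ) : ℝ) * (D * sq1 x)) ≤ ∑ i, (k (Sum.inr (Sum.inl i)) : ℝ) * x i := by
    have : ∑ i : Fin (n + 1), (-(D * sq1 x)) ≤ ∑ i, (k (Sum.inr (Sum.inl i)) : ℝ) * x i := by
      refine Finset.sum_le_sum fun i _ => ?_
      refine neg_le_mul (Nat.cast_nonneg _) (hk' _) hs0 ?_
      nlinarith [sq_le_sq1 x i, sq_nonneg (x i + 1)]
    simpa using this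
  have h6 : (0 : ℝ) ≤ k (Sum.inr (Sum.inr ())) := Nat.cast_nonneg _
  have h7 := mul_le_mul_of_nonneg_right hM' hs0
  have h8 : (0 : ℝ) ≤ D * sq1 x := mul_nonneg (Nat.cast_nonneg _) hs0
  nlinarith

theorem BigQ.posQ {p : QP ℝ (n + 1)} (h : BigQ p) : PosQ p := by
  refine ⟨fun x => (one_le_sq1 x).trans (h x), fun ξ hξ => ?_⟩
  set Q : ℝ := ∑ i, ∑ j, p.1 i j * ξ i * ξ j with hQ
  set L : ℝ := ∑ i, p.2.1 i * ξ i with hL
  set T : ℝ := ∑ i, ξ i ^ 2 with hT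
  have hT0 : 0 < T := by
    obtain ⟨i, hi⟩ := Function.ne_iff.mp hξ
    exact Finset.sum_pos' (fun i _ => sq_nonneg _) ⟨i, Finset.mem_univ i, by
      have : ξ i ≠ 0 := hi
      positivity⟩
  have key : ∀ t : ℝ, 1 + t ^ 2 * T ≤ t ^ 2 * Q + t * L + p.2.2 := by
    intro t
    have := h (fun i => t * ξ i)
    have e1 : sq1 (fun i => t * ξ i) = 1 + t ^ 2 * T := by
      simp only [sq1, hT, Finset.mul_sum]
      congr 1
      exact Finset.sum_congr rfl fun i _ => by ring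
    have e2 : qvR p (fun i => t * ξ i) = t ^ 2 * Q + t * L + p.2.2 := by
      simp only [qvR, hQ, hL, Finset.mul_sum]
      congr 2
      · exact Finset.sum_congr rfl fun i _ => Finset.sum_congr rfl fun j _ => by ring
      · exact Finset.sum_congr rfl fun i _ => by ring
    rwa [e1, e2] at this
  by_contra hcon
  push Not at hcon
  have k2 : ∀ t : ℝ, 2 + 2 * t ^ 2 * T ≤ 2 * p.2.2 := by
    intro t
    have h1 := key t
    have h2 := key (-t)
    nlinarith [mul_nonneg (sq_nonneg t) (neg_nonneg.mpr hcon)]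
  have h3 := k2 0
  have hc : 0 < p.2.2 := by nlinarith
  have h4 := k2 (Real.sqrt (p.2.2 / T))
  rw [Real.sq_sqrt (by positivity)] at h4
  have h5 : 2 * (p.2.2 / T) * T = 2 * p.2.2 := by field_simp
  linarith

/-- Existence of the base. -/
theorem exists_base (n l : ℕ) {Φ : MvPolynomial (Ix n l) ℂ} (hΦ : Φ ≠ 0) :
    ∃ N₁ G, GoodBase Φ N₁ G := by
  classical
  set Ψ : MvPolynomial (Ix n l) ℂ :=
    bind₁ (subC n l ((-1 : ℝ) : ℂ)) Φ * bind₁ (subC n l ((1 : ℝ) : ℂ)) Φ with hΨ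
  have hΨ0 : Ψ ≠ 0 := mul_ne_zero (bind_subC_ne hΦ _) (bind_subC_ne hΦ _)
  set D : ℕ := Ψ.totalDegree with hD
  set M : ℤ := 1 + D * ((n + 1 : ℕ) * (n + 1 : ℕ) + (n + 1 : ℕ) + 1) with hM
  let S : Ix n l → Finset ℂ := fun z =>
    (Finset.range (D + 1)).image fun k : ℕ => (((bas M z.2 + (k : ℤ) : ℤ)) : ℂ)
  have hex : ∃ x : Ix n l → ℂ, (∀ z, x z ∈ S z) ∧ eval x Ψ ≠ 0 := by
    by_contra hcon
    push Not at hcon
    refine hΨ0 (eq_zero_of_eval_zero_at_prod_finset Ψ S (fun i => ?_) hcon)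
    have hc : (S i).card = D + 1 := by
      rw [Finset.card_image_of_injective, Finset.card_range]
      intro a b hab
      have hab' : (((bas M i.2 + (a : ℤ) : ℤ)) : ℂ) = (((bas M i.2 + (b : ℤ) : ℤ)) : ℂ) := hab
      have := Int.cast_injective hab'
      omega
    rw [hc]
    exact Nat.lt_succ_of_le (degreeOf_le_totalDegree Ψ i)
  obtain ⟨x, hxS, hx⟩ := hex
  have hk : ∀ z, ∃ k : ℕ, k ≤ D ∧ x z = ((bas M z.2 + (k : ℤ) : ℤ) : ℂ) := by
    intro z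
    obtain ⟨k, hk, hkx⟩ := Finset.mem_image.mp (hxS z)
    exact ⟨k, Nat.le_of_lt_succ (Finset.mem_range.mp hk), hkx.symm⟩
  choose k hkD hkx using hk
  have hcf : ∀ c : ℝ, cfs (tC (baseT (qZR (toR fun z => bas M z + (k (0, z) : ℤ)))
      (fun i => qZR (toR fun z => bas M z + (k (i.succ, z) : ℤ))) c (-1))) =
      fun z : Ix n l => eval x (subC n l (c : ℂ) z) := by
    intro c
    funext z
    obtain ⟨m, z⟩ := z
    rw [eval_subC, hkx]
    refine Fin.cases ?_ (fun i => ?_) m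
    · rcases z with ⟨i, j⟩ | i | u
      · simp [cfs, tC, baseT, qZR, toR, qcst]
        try ring
      · simp [cfs, tC, baseT, qZR, toR, qcst]
        try ring
      · simp [cfs, tC, baseT, qZR, toR, qcst]
        try ring
    · rcases z with ⟨a, b⟩ | a | u
      · simp [cfs, tC, baseT, qZR, toR]
      · simp [cfs, tC, baseT, qZR, toR]
      · simp [cfs, tC, baseT, qZR, toR]
  rw [hΨ, map_mul, eval_bind, eval_bind, mul_ne_zero_iff] at hx
  refine ⟨toR fun z => bas M z + (k (0, z) : ℤ),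
    fun i => toR fun z => bas M z + (k (i.succ, z) : ℤ),
    (bigQ_of_box (D := D) (by rw [hM]) fun z => hkD _).posQ,
    fun i => (bigQ_of_box (D := D) (by rw [hM]) fun z => hkD _).posQ, ?_, ?_⟩
  · rw [hcf]
    exact hx.1
  · rw [hcf]
    exact hx.2

/-- Clearing denominators. -/
theorem exists_clear {σ : Type*} (u : σ → MvPolynomial (Fin 3) ℂ) (Ψ : MvPolynomial σ ℂ) :
    ∃ (K : ℕ) (φ : MvPolynomial (Fin 3) ℂ), ∀ v : Fin 3 → ℂ, v 0 ≠ 0 →
      eval v φ = v 0 ^ K * eval (fun z => (v 0)⁻¹ * eval v (u z)) Ψ := by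
  induction Ψ using MvPolynomial.induction_on with
  | C a =>
    refine ⟨0, C a, fun v _ => ?_⟩
    simp
  | add p q hp hq =>
    obtain ⟨K, φ, h⟩ := hp
    obtain ⟨K', φ', h'⟩ := hq
    refine ⟨K + K', X 0 ^ K' * φ + X 0 ^ K * φ', fun v hv => ?_⟩
    simp only [map_add, map_mul, map_pow, eval_X, h v hv, h' v hv]
    ring
  | mul_X p z hp =>
    obtain ⟨K, φ, h⟩ := hp
    refine ⟨K + 1, φ * u z, fun v hv => ?_⟩
    simp only [map_mul, eval_X, h v hv]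
    field_simp
    ring

/-- Coefficients of the tuple `rho * q_b + s` as polynomials in the parameters `(rho, eps, delta)`;
`s` is added to the constant coefficient of `P_0`. -/
noncomputable def uB (N₁ : QP ℝ (n + 1)) (G b : Fin l → QP ℝ (n + 1)) (s : ℝ) (z : Ix n l) :
    MvPolynomial (Fin 3) ℂ :=
  Fin.cases (motive := fun _ => MvPolynomial (Fin 3) ℂ)
    ((if z.2 = Sum.inr (Sum.inr ()) then C ((1 + s : ℝ) : ℂ) else 0) -
      X 2 * C (cfs (n := n) (l := 0) (tC fun _ => N₁) (0, z.2)))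
    (fun i => X 0 * ((1 - X 1) * C (cfs (n := n) (l := 0) (tC fun _ => b i) (0, z.2)) +
      X 1 * C (cfs (n := n) (l := 0) (tC fun _ => G i) (0, z.2)))) z.1

theorem eval_uB (N₁ : QP ℝ (n + 1)) (G b : Fin l → QP ℝ (n + 1)) (s ρ ε δ : ℝ) (hρ : ρ ≠ 0) :
    (fun z => ((![(ρ : ℂ), (ε : ℂ), (δ : ℂ)] : Fin 3 → ℂ) 0)⁻¹ *
      eval (![(ρ : ℂ), (ε : ℂ), (δ : ℂ)] : Fin 3 → ℂ) (uB N₁ G b s z)) =
      cfs (tC (addT (qb N₁ G b δ ε ρ) (s / ρ))) := by
  have hρ' : (ρ : ℂ) ≠ 0 := by exact_mod_cast hρ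
  funext z
  obtain ⟨m, z⟩ := z
  refine Fin.cases ?_ (fun i => ?_) m
  · rcases z with ⟨i, j⟩ | i | u
    · simp [uB, cfs, tC, qb, qcst, addT]
      try ring
    · simp [uB, cfs, tC, qb, qcst, addT]
      try ring
    · simp [uB, cfs, tC, qb, qcst, addT]
      try ring
  · rcases z with ⟨a, b⟩ | a | u
    · simp [uB, cfs, tC, qb, addT, Fin.succ_ne_zero, hρ']
    · simp [uB, cfs, tC, qb, addT, Fin.succ_ne_zero, hρ']
    · simp [uB, cfs, tC, qb, addT, Fin.succ_ne_zero, hρ']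

theorem addT_zero' (q : RTup n l) : addT q 0 = q := by
  funext m
  by_cases h : m = 0
  · subst h
    simp [addT]
  · simp [addT, h]

/-- The polynomial in the small parameters `(rho, eps, delta)`. -/
theorem exists_phi {Φ : MvPolynomial (Ix n l) ℂ} {N1 : QP ℤ (n + 1)}
    {G : Fin l → QP ℤ (n + 1)} (hB : GoodBase Φ N1 G) (b : Fin l → QP ℝ (n + 1)) :
    ∃ φ : MvPolynomial (Fin 3) ℂ, φ ≠ 0 ∧ ∀ ρ ε δ : ℝ, ρ ≠ 0 →
      eval (![(ρ : ℂ), (ε : ℂ), (δ : ℂ)] : Fin 3 → ℂ) φ ≠ 0 →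
      eval (cfs (tC (qb (qZR N1) (fun i => qZR (G i)) b δ ε ρ))) Φ ≠ 0 ∧
      eval (cfs (tC (addT (qb (qZR N1) (fun i => qZR (G i)) b δ ε ρ) (-2 / ρ)))) Φ ≠ 0 := by
  set N₁ : QP ℝ (n + 1) := qZR N1 with hN₁
  set G' : Fin l → QP ℝ (n + 1) := fun i => qZR (G i) with hG'
  obtain ⟨K, φ, hφ⟩ := exists_clear (uB N₁ G' b 0) Φ
  obtain ⟨K', φ', hφ'⟩ := exists_clear (uB N₁ G' b (-2)) Φ
  have e1 : ∀ ρ ε δ : ℝ, ρ ≠ 0 → eval (![(ρ : ℂ), (ε : ℂ), (δ : ℂ)] : Fin 3 → ℂ) φ =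
      (ρ : ℂ) ^ K * eval (cfs (tC (qb N₁ G' b δ ε ρ))) Φ := by
    intro ρ ε δ hρ
    have hρ' : (ρ : ℂ) ≠ 0 := by exact_mod_cast hρ
    rw [hφ _ (by simpa using hρ'), eval_uB N₁ G' b 0 ρ ε δ hρ, zero_div, addT_zero']
    rfl
  have e2 : ∀ ρ ε δ : ℝ, ρ ≠ 0 → eval (![(ρ : ℂ), (ε : ℂ), (δ : ℂ)] : Fin 3 → ℂ) φ' =
      (ρ : ℂ) ^ K' * eval (cfs (tC (addT (qb N₁ G' b δ ε ρ) (-2 / ρ)))) Φ := by
    intro ρ ε δ hρ
    have hρ' : (ρ : ℂ) ≠ 0 := by exact_mod_cast hρ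
    rw [hφ' _ (by simpa using hρ'), eval_uB N₁ G' b (-2) ρ ε δ hρ]
    rfl
  have q1 : qb N₁ G' b 1 1 1 = baseT N₁ G' 1 (-1) := by
    simp [qb, baseT]
  have q2 : addT (qb N₁ G' b 1 1 1) (-2 / 1) = baseT N₁ G' (-1) (-1) := by
    rw [q1]
    funext m
    refine Fin.cases ?_ (fun i => ?_) m
    · ext <;> simp [addT, baseT, qcst]
      ring
    · simp [addT, baseT, Fin.succ_ne_zero]
  refine ⟨φ * φ', ?_, fun ρ ε δ hρ h => ?_⟩
  · intro h0
    have h3 : eval (![((1 : ℝ) : ℂ), ((1 : ℝ) : ℂ), ((1 : ℝ) : ℂ)] : Fin 3 → ℂ) (φ * φ') = 0 := by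
      rw [h0, map_zero]
    rw [map_mul, e1 1 1 1 one_ne_zero, e2 1 1 1 one_ne_zero, q2, q1] at h3
    simp only [Complex.ofReal_one, one_pow, one_mul, mul_eq_zero] at h3
    rcases h3 with h3 | h3
    · exact hB.nz' h3
    · exact hB.nz h3
  · rw [map_mul, e1 ρ ε δ hρ, e2 ρ ε δ hρ] at h
    exact ⟨right_ne_zero_of_mul (left_ne_zero_of_mul h),
      right_ne_zero_of_mul (right_ne_zero_of_mul h)⟩

end Pool.Agent.QC.Red
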