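import Pool.Agent.QC.Red.Mono

/-!
# MP_7c50a9_lc, section 1.1: the reduction to smooth families

`S = {x : b_i(x) ≥ 0}` has as many components as
`W = {x : 1 - d N > 0, b_i + e G_i > 0, (1 - d N) prod (b_i + e G_i) > r}`
for good small parameters `d`, `e`, `r`.
-/

namespace Pool.Agent.QC.Red

open Set Topology Filter

set_option linter.unusedSectionVars false

variable {E : Type*} [NormedAddCommGroup E] [NormedSpace ℝ E] {ι : Type*}

/-- The factors `1 - d N` and `b_i + e G_i`. -/
def pf (b G : ι → E → ℝ) (N : E → ℝ) (d e : ℝ) : Option ι → E → ℝ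
  | none => fun x => 1 - d * N x
  | some i => fun x => b i x + e * G i x

/-- Data of section 1.1. -/
structure Dat (b G : ι → E → ℝ) (N : E → ℝ) : Prop where
  b_diff : ∀ i, ContDiff ℝ 1 (b i)
  G_diff : ∀ i, ContDiff ℝ 1 (G i)
  N_diff : ContDiff ℝ 1 N
  G_pos : ∀ i x, 0 < G i x
  N_pos : ∀ x, 0 < N x
  N_proper : ∀ R, IsCompact {x | N x ≤ R}

/-- Good parameters: `Q d e r` holds for `r` much smaller than `e` much smaller than `d`, with the
necessary uniformity. -/
structure Params (Q : ℝ → ℝ → ℝ → Prop) (d0 : ℝ) (e0 : ℝ → ℝ) : Prop where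
  d0_pos : 0 < d0
  e0_pos : ∀ d, 0 < d → d < d0 → 0 < e0 d
  U1 : ∀ d, 0 < d → d < d0 → ∀ e1 e2, 0 < e1 → e1 ≤ e2 → e2 < e0 d →
    ∃ r0 > 0, ∀ e ∈ Icc e1 e2, ∀ r, 0 < r → r < r0 → Q d e r
  U2 : ∀ d1 d2, 0 < d1 → d1 ≤ d2 → d2 < d0 → ∃ e1 > 0, ∀ e, 0 < e → e < e1 →
    ∃ r0 > 0, ∀ d ∈ Icc d1 d2, ∀ r, 0 < r → r < r0 → Q d e r

variable {b G : ι → E → ℝ} {N : E → ℝ}

theorem Dat.pf_diff (h : Dat b G N) (d e : ℝ) (m : Option ι) : ContDiff ℝ 1 (pf b G N d e m) := by
  cases m with
  | none => exact contDiff_const.sub (contDiff_const.mul h.N_diff)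
  | some i => exact (h.b_diff i).add (contDiff_const.mul (h.G_diff i))

theorem Dat.pf_cont (h : Dat b G N) (u v : ℝ → ℝ) (hu : Continuous u) (hv : Continuous v)
    (m : Option ι) : Continuous (fun z : ℝ × E => pf b G N (u z.1) (v z.1) m z.2) := by
  cases m with
  | none =>
    exact continuous_const.sub ((hu.comp continuous_fst).mul
      (h.N_diff.continuous.comp continuous_snd))
  | some i =>
    exact ((h.b_diff i).continuous.comp continuous_snd).add ((hv.comp continuous_fst).mul
      ((h.G_diff i).continuous.comp continuous_snd))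

theorem Dat.isCompact (h : Dat b G N) {d : ℝ} (hd : 0 < d) (e : ℝ) :
    IsCompact {x | ∀ m, 0 ≤ pf b G N d e m x} := by
  refine (h.N_proper (1 / d)).of_isClosed_subset ?_ ?_
  · have : {x | ∀ m, 0 ≤ pf b G N d e m x} = ⋂ m, {x | 0 ≤ pf b G N d e m x} := by
      ext x
      simp
    rw [this]
    exact isClosed_iInter fun m => isClosed_le continuous_const (h.pf_diff d e m).continuous
  · intro x hx
    have h1 : 0 ≤ 1 - d * N x := hx none
    show N x ≤ 1 / d
    rw [le_div_iff₀ hd]
    linarith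

section Bij

variable [Fintype ι]

theorem prod_pf (d e : ℝ) (x : E) :
    ∏ m, pf b G N d e m x = (1 - d * N x) * ∏ i, (b i x + e * G i x) := by
  rw [Fintype.prod_option]
  rfl

/-- `r` decreases -/
theorem Dat.bijR (h : Dat b G N) {d e : ℝ} (hd : 0 < d) {r r' : ℝ} (hr' : 0 < r')
    (hrr : r' ≤ r) (hreg : ∀ s, r' ≤ s → s ≤ r → RegP (pf b G N d e) s) :
    PiBij (WP (pf b G N d e) r) (WP (pf b G N d e) r') := by
  have := piBij_of_path (fun m (_ : ℝ) => pf b G N d e m) (fun s => -s) (s₀ := -r) (s₁ := -r')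
    (by linarith) (fun m => h.pf_cont (fun _ => d) (fun _ => e) continuous_const
      continuous_const m) continuous_neg (fun s hs => by linarith [hs.2])
    (fun s hs t ht hst x hx => ⟨hx, by
      have hp : 0 < ∏ m, pf b G N d e m x := Finset.prod_pos fun m _ => hx m
      nlinarith⟩)
    (fun s _ => h.isCompact hd e) (fun m _ => h.pf_diff d e m)
    (fun s hs => hreg (-s) (by linarith [hs.2]) (by linarith [hs.1]))
  simpa using this

/-- `e` increases -/
theorem Dat.bijE [Nonempty ι] (h : Dat b G N) {d e e' : ℝ} (hd : 0 < d) (hee : e ≤ e')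
    {r : ℝ} (hr : 0 < r) (hreg : ∀ s ∈ Icc e e', RegP (pf b G N d s) r) :
    PiBij (WP (pf b G N d e) r) (WP (pf b G N d e') r) := by
  refine piBij_of_path (fun m s => pf b G N d s m) (fun _ => r) hee
    (fun m => h.pf_cont (fun _ => d) (fun s => s) continuous_const continuous_id m)
    continuous_const (fun _ _ => hr) (fun s _ t _ hst x hx => ?_)
    (fun s _ => h.isCompact hd s) (fun m s => h.pf_diff d s m) hreg
  have h0 : 0 < 1 - d * N x := hx none
  have hs : ∀ i, 0 < b i x + s * G i x := fun i => hx (some i)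
  have hst' : ∀ i, b i x + s * G i x < b i x + t * G i x := fun i => by
    have := mul_lt_mul_of_pos_right hst (h.G_pos i x)
    linarith
  refine ⟨fun m => ?_, ?_⟩
  · cases m with
    | none => exact h0
    | some i => exact (hs i).trans (hst' i)
  · rw [prod_pf, prod_pf]
    have h1 : ∏ i, (b i x + s * G i x) < ∏ i, (b i x + t * G i x) :=
      Finset.prod_lt_prod_of_nonempty (fun i _ => hs i) (fun i _ => hst' i) Finset.univ_nonempty
    exact mul_lt_mul_of_pos_right (mul_lt_mul_of_pos_left h1 h0) hr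

/-- `d` decreases -/
theorem Dat.bijD (h : Dat b G N) {d d' e : ℝ} (hd : 0 < d) (hdd : d ≤ d')
    {r : ℝ} (hr : 0 < r) (hreg : ∀ s ∈ Icc d d', RegP (pf b G N s e) r) :
    PiBij (WP (pf b G N d' e) r) (WP (pf b G N d e) r) := by
  have := piBij_of_path (fun m (s : ℝ) => pf b G N (-s) e m) (fun _ => r) (s₀ := -d') (s₁ := -d)
    (by linarith) (fun m => h.pf_cont (fun s => -s) (fun _ => e) continuous_neg
      continuous_const m) continuous_const (fun s _ => hr)
    (fun s _ t _ hst x hx => ?_)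
    (fun s hs => h.isCompact (by linarith [hs.2]) e) (fun m s => h.pf_diff (-s) e m)
    (fun s hs => hreg (-s) ⟨by linarith [hs.2], by linarith [hs.1]⟩)
  · simpa using this
  · have h0 : 0 < 1 - (-s) * N x := hx none
    have hs : ∀ i, 0 < b i x + e * G i x := fun i => hx (some i)
    have h1 : 1 - (-s) * N x < 1 - (-t) * N x := by
      have := mul_lt_mul_of_pos_right hst (h.N_pos x)
      linarith
    refine ⟨fun m => ?_, ?_⟩
    · cases m with
      | none => exact h0.trans h1
      | some i => exact hs i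
    · rw [prod_pf, prod_pf]
      have h2 : 0 < ∏ i, (b i x + e * G i x) := Finset.prod_pos fun i _ => hs i
      exact mul_lt_mul_of_pos_right (mul_lt_mul_of_pos_right h1 h2) hr

/-- `W` and `O` -/
theorem Dat.bijO (h : Dat b G N) {d e r0 : ℝ} (hd : 0 < d)
    (hreg : ∀ r, 0 < r → r < r0 → RegP (pf b G N d e) r) {r : ℝ} (hr : 0 < r) (hr0 : r < r0) :
    PiBij (WP (pf b G N d e) r) (OP (pf b G N d e)) := by
  have hc : ∀ m, Continuous (pf b G N d e m) := fun m => (h.pf_diff d e m).continuous
  refine piBij_iUnion (r0 := r0) (fun r _ => isOpen_WP hc r) (isOpen_OP hc)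
    (fun r _ x hx => hx.1) (fun x hx => ?_) (fun r r' _ hrr x hx => ⟨hx.1, hrr.trans_lt hx.2⟩)
    (fun r r' hr' hrr hr0 => h.bijR hd hr' hrr fun s hs hs' =>
      hreg s (hr'.trans_le hs) (hs'.trans_lt hr0)) hr hr0
  have hp : 0 < ∏ m, pf b G N d e m x := Finset.prod_pos fun m _ => hx m
  exact ⟨(∏ m, pf b G N d e m x) / 2, by positivity, hx, by linarith⟩

/-- `e` increases, all index types -/
theorem Dat.bijE' (h : Dat b G N) {d e e' : ℝ} (hd : 0 < d) (hee : e ≤ e')
    {r : ℝ} (hr : 0 < r) (hreg : ∀ s ∈ Icc e e', RegP (pf b G N d s) r) :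
    PiBij (WP (pf b G N d e) r) (WP (pf b G N d e') r) := by
  rcases isEmpty_or_nonempty ι with hι | hι
  · have : pf b G N d e = pf b G N d e' := by
      funext m
      cases m with
      | none => rfl
      | some i => exact (hι.false i).elim
    rw [this]
    exact PiBij.refl _
  · exact h.bijE hd hee hr hreg

/-- The nested family of section 1.1. -/
theorem Dat.nested (h : Dat b G N) {Q : ℝ → ℝ → ℝ → Prop} {d0 : ℝ} {e0 : ℝ → ℝ}
    (hP : Params Q d0 e0)
    (hQ : ∀ d e r, 0 < d → 0 < e → 0 < r → Q d e r → RegP (pf b G N d e) r) :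
    Nested {x | ∀ i, 0 ≤ b i x} (fun d e => OP (pf b G N d e))
      (fun d e => {x | ∀ m, 0 ≤ pf b G N d e m x}) d0 e0 := by
  have hPO : ∀ d, 0 < d → d < d0 → ∀ e, 0 < e → e < e0 d → ∃ r0 > 0, ∀ r, 0 < r → r < r0 →
      PiBij (WP (pf b G N d e) r) (OP (pf b G N d e)) := by
    intro d hd hd0 e he he0
    obtain ⟨r0, hr0, hr⟩ := hP.U1 d hd hd0 e e he le_rfl he0
    exact ⟨r0, hr0, fun r h1 h2 => h.bijO hd (fun r hr1 hr2 => hQ d e r hd he hr1
      (hr e ⟨le_rfl, le_rfl⟩ r hr1 hr2)) h1 h2⟩
  constructor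
  · exact hP.d0_pos
  · exact hP.e0_pos
  · exact fun d e _ _ => isOpen_OP fun m => (h.pf_diff d e m).continuous
  · exact fun d e hd _ => h.isCompact hd e
  · exact fun d e _ _ x hx m => (hx m).le
  · intro d e e' _ _ hee x hx m
    cases m with
    | none => exact hx none
    | some i =>
      have h1 : 0 ≤ b i x + e * G i x := hx (some i)
      have h2 := mul_le_mul_of_nonneg_right hee (h.G_pos i x).le
      show 0 ≤ b i x + e' * G i x
      linarith
  · intro d e e' _ _ hee x hx m
    cases m with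
    | none => exact hx none
    | some i =>
      have h1 : 0 < b i x + e * G i x := hx (some i)
      have h2 := mul_le_mul_of_nonneg_right hee (h.G_pos i x).le
      show 0 < b i x + e' * G i x
      linarith
  · intro d d' e _ hdd _ x hx m
    cases m with
    | none =>
      have h1 : 0 < 1 - d' * N x := hx none
      have h2 := mul_le_mul_of_nonneg_right hdd (h.N_pos x).le
      show 0 < 1 - d * N x
      linarith
    | some i => exact hx (some i)
  · intro d x hd hx
    have h0 : 0 ≤ 1 - d * N x := hx 1 one_pos none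
    have hS : ∀ i, 0 ≤ b i x := by
      intro i
      by_contra hcon
      push Not at hcon
      have hG := h.G_pos i x
      have h1 : 0 ≤ b i x + (-b i x / (2 * G i x)) * G i x :=
        hx (-b i x / (2 * G i x)) (div_pos (by linarith) (by positivity)) (some i)
      have h2 : (-b i x / (2 * G i x)) * G i x = -b i x / 2 := by
        field_simp
      rw [h2] at h1
      linarith
    refine ⟨hS, fun d' hd' hdd e he m => ?_⟩
    cases m with
    | none =>
      have h2 := mul_lt_mul_of_pos_right hdd (h.N_pos x)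
      show 0 < 1 - d' * N x
      linarith
    | some i =>
      have h2 := mul_pos he (h.G_pos i x)
      show 0 < b i x + e * G i x
      linarith [hS i]
  · intro x hx
    refine ⟨1 / N x, one_div_pos.mpr (h.N_pos x), fun d _ hd e he m => ?_⟩
    cases m with
    | none =>
      have h2 := (lt_div_iff₀ (h.N_pos x)).mp hd
      show 0 < 1 - d * N x
      linarith
    | some i =>
      have h2 := mul_pos he (h.G_pos i x)
      show 0 < b i x + e * G i x
      linarith [hx i]
  · intro x hxS d e _ _ hx e' he' m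
    cases m with
    | none => exact hx none
    | some i =>
      have h2 := mul_pos he' (h.G_pos i x)
      show 0 < b i x + e' * G i x
      linarith [hxS i]
  · intro d hd hd0 e e' he hee he0
    obtain ⟨r1, hr1, h1⟩ := hPO d hd hd0 e he (hee.trans_lt he0)
    obtain ⟨r2, hr2, h2⟩ := hPO d hd hd0 e' (he.trans_le hee) he0
    obtain ⟨r3, hr3, h3⟩ := hP.U1 d hd hd0 e e' he hee he0
    have hm : 0 < min (min r1 r2) r3 := lt_min (lt_min hr1 hr2) hr3
    have hlt : min (min r1 r2) r3 / 2 < min (min r1 r2) r3 := by linarith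
    set r := min (min r1 r2) r3 / 2 with hr
    have hrp : 0 < r := by positivity
    have hb1 := h1 r hrp ((hlt.trans_le (min_le_left _ _)).trans_le (min_le_left _ _))
    have hb2 := h2 r hrp ((hlt.trans_le (min_le_left _ _)).trans_le (min_le_right _ _))
    have hb3 := h.bijE' hd hee hrp fun s hs => hQ d s r hd (he.trans_le hs.1) hrp
      (h3 s hs r hrp (hlt.trans_le (min_le_right _ _)))
    refine PiBij.of_trans_left (V := WP (pf b G N d e) r) ?_ hb1 (hb3.trans hb2)
    intro x hx m
    cases m with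
    | none => exact hx none
    | some i =>
      have h1 : 0 < b i x + e * G i x := hx (some i)
      have h2 := mul_le_mul_of_nonneg_right hee (h.G_pos i x).le
      show 0 < b i x + e' * G i x
      linarith
  · intro d d' hd hdd hd0
    obtain ⟨e1, he1, h1⟩ := hP.U2 d d' hd hdd hd0
    refine ⟨min e1 (min (e0 d) (e0 d')), lt_min he1 (lt_min (hP.e0_pos d hd (hdd.trans_lt hd0))
      (hP.e0_pos d' (hd.trans_le hdd) hd0)), fun e he hlt => ?_⟩
    have hlt1 := hlt.trans_le (min_le_left _ _)
    have hlt2 := (hlt.trans_le (min_le_right _ _)).trans_le (min_le_left _ _)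
    have hlt3 := (hlt.trans_le (min_le_right _ _)).trans_le (min_le_right _ _)
    obtain ⟨r1, hr1, h2⟩ := hPO d hd (hdd.trans_lt hd0) e he hlt2
    obtain ⟨r2, hr2, h3⟩ := hPO d' (hd.trans_le hdd) hd0 e he hlt3
    obtain ⟨r3, hr3, h4⟩ := h1 e he hlt1
    have hm : 0 < min (min r1 r2) r3 := lt_min (lt_min hr1 hr2) hr3
    have hlt' : min (min r1 r2) r3 / 2 < min (min r1 r2) r3 := by linarith
    set r := min (min r1 r2) r3 / 2 with hr
    have hrp : 0 < r := by positivity
    have hb1 := h2 r hrp ((hlt'.trans_le (min_le_left _ _)).trans_le (min_le_left _ _))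
    have hb2 := h3 r hrp ((hlt'.trans_le (min_le_left _ _)).trans_le (min_le_right _ _))
    have hb3 := h.bijD hd hdd hrp fun s hs => hQ s e r (hd.trans_le hs.1) he hrp
      (h4 s hs r hrp (hlt'.trans_le (min_le_right _ _)))
    refine PiBij.of_trans_left (V := WP (pf b G N d' e) r) ?_ hb2 (hb3.trans hb1)
    intro x hx m
    cases m with
    | none =>
      have h1 : 0 < 1 - d' * N x := hx none
      have h2 := mul_le_mul_of_nonneg_right hdd (h.N_pos x).le
      show 0 < 1 - d * N x
      linarith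
    | some i => exact hx (some i)

/-- Section 1.1, the number of components. -/
theorem Dat.card_eq (h : Dat b G N)
    {Q : ℝ → ℝ → ℝ → Prop} {d0 : ℝ} {e0 : ℝ → ℝ} (hP : Params Q d0 e0)
    (hQ : ∀ d e r, 0 < d → 0 < e → 0 < r → Q d e r → RegP (pf b G N d e) r)
    {d e : ℝ} (hd : 0 < d) (hd0 : d < d0) (he : 0 < e) (he0 : e < e0 d) :
    ∃ r0 > 0, ∀ r, 0 < r → r < r0 → Q d e r ∧
      Finite (ConnectedComponents {x | ∀ i, 0 ≤ b i x}) ∧
      Nat.card (ConnectedComponents (WP (pf b G N d e) r)) =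
        Nat.card (ConnectedComponents {x | ∀ i, 0 ≤ b i x}) := by
  obtain ⟨r0, hr0, hr⟩ := hP.U1 d hd hd0 e e he le_rfl he0
  refine ⟨r0, hr0, fun r h1 h2 => ⟨hr e ⟨le_rfl, le_rfl⟩ r h1 h2, ?_⟩⟩
  obtain ⟨e1⟩ := ((h.nested hP hQ).piEq hd hd0 he he0).equiv
  obtain ⟨e2⟩ := (h.bijO hd (fun r hr1 hr2 => hQ d e r hd he hr1
    (hr e ⟨le_rfl, le_rfl⟩ r hr1 hr2)) h1 h2).piEq.equiv
  have hfin : Finite (ConnectedComponents (WP (pf b G N d e) r)) := by
    have hc : ∀ m, Continuous (pf b G N d e m) := fun m => (h.pf_diff d e m).continuous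
    refine finite_components (K := KP (pf b G N d e) r) (isOpen_WP hc r) ?_ ?_ ?_
    · exact (h.isCompact hd e).of_isClosed_subset (isClosed_KP hc r) fun x hx => hx.1
    · exact fun x hx => ⟨fun m => (hx.1 m).le, hx.2.le⟩
    · exact fun x hx => locConn_WP (h.pf_diff d e) h1
        (hQ d e r hd he h1 (hr e ⟨le_rfl, le_rfl⟩ r h1 h2)) hx
  exact ⟨Finite.of_equiv _ (e2.trans e1.symm), Nat.card_congr (e2.trans e1.symm)⟩

end Bij

end Pool.Agent.QC.Red
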