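import Pool.Agent.QC.Red.Param
import Pool.Agent.QC.Red.Geo

/-!
# MP_7c50a9_lc, section 1.1: the structure `Params` for a polynomial in three variables
-/

namespace Pool.Agent.QC.Red

open MvPolynomial Set

/-- Small parameters for a nonzero polynomial in `(rho, eps, delta)`, as a structure. -/
theorem exists_Params {φ : MvPolynomial (Fin 3) ℂ} (hφ : φ ≠ 0) :
    ∃ (d0 : ℝ) (e0 : ℝ → ℝ),
      Params (fun d e r => eval (![(r : ℂ), (e : ℂ), (d : ℂ)] : Fin 3 → ℂ) φ ≠ 0) d0 e0 := by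
  classical
  obtain ⟨d0, hd0, h1, h2⟩ := exists_param hφ
  choose! e0 he0 he using h1
  refine ⟨d0, e0, hd0, fun d hd hd' => he0 d ⟨hd, hd'⟩, fun d hd hd' e1 e2 he1 _ he2 => ?_,
    fun d1 d2 hd1 _ hd2 => ?_⟩
  · obtain ⟨r0, hr0, hr⟩ := he d ⟨hd, hd'⟩ e1 e2 he1 he2
    exact ⟨r0, hr0, fun e he r h3 h4 => hr e he r ⟨h3, h4⟩⟩
  · obtain ⟨e1, he1, h3⟩ := h2 d1 d2 hd1 hd2
    refine ⟨e1, he1, fun e h4 h5 => ?_⟩
    obtain ⟨r0, hr0, hr⟩ := h3 e ⟨h4, h5⟩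
    exact ⟨r0, hr0, fun d hd r h6 h7 => hr d hd r ⟨h6, h7⟩⟩

end Pool.Agent.QC.Red
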