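import Pool.Agent.QC.Red.Geo
import Pool.Agent.QC.Red.Real
import Pool.Agent.QC.Rec
import Pool.Agent.QC.Red.Base
import Pool.Agent.QC.Red.Par3

/-!
# MP_7c50a9_lc, section 1.1: adaptation to tuples

From good parameters of the genericity polynomial to the theorem `reduction`.
-/

namespace Pool.Agent.QC.Red

open Set Topology Filter MvPolynomial

variable {n l : ℕ}

theorem qvR_add (p q : QP ℝ (n + 1)) (x : Fin (n + 1) → ℝ) :
    qvR (p + q) x = qvR p x + qvR q x := by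
  simp only [qvR, Prod.fst_add, Prod.snd_add, Pi.add_apply, add_mul, Finset.sum_add_distrib]
  ring

theorem qvR_smul (a : ℝ) (p : QP ℝ (n + 1)) (x : Fin (n + 1) → ℝ) :
    qvR (a • p) x = a * qvR p x := by
  simp only [qvR, Prod.smul_fst, Prod.smul_snd, Pi.smul_apply, smul_eq_mul, mul_add,
    Finset.mul_sum, mul_assoc]

theorem qvR_qcst (t : ℝ) (x : Fin (n + 1) → ℝ) : qvR (qcst t) x = t := by
  simp [qvR, qcst]

theorem qvR_qb_zero (N1 : QP ℝ (n + 1)) (G b : Fin l → QP ℝ (n + 1)) (δ ε ρ : ℝ)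
    (x : Fin (n + 1) → ℝ) : qvR (qb N1 G b δ ε ρ 0) x = ρ⁻¹ * (1 - δ * qvR N1 x) := by
  simp only [qb, Fin.cons_zero, qvR_smul, qvR_add, qvR_qcst]
  ring

theorem qvR_qb_succ (N1 : QP ℝ (n + 1)) (G b : Fin l → QP ℝ (n + 1)) (δ ε ρ : ℝ) (i : Fin l)
    (x : Fin (n + 1) → ℝ) :
    qvR (qb N1 G b δ ε ρ i.succ) x = (1 - ε) * qvR (b i) x + ε * qvR (G i) x := by
  simp only [qb, Fin.cons_succ, qvR_smul, qvR_add]

/-- the factors of section 1.1 for the input `b` -/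
noncomputable abbrev pq (N1 : QP ℝ (n + 1)) (G b : Fin l → QP ℝ (n + 1)) (d e : ℝ) :
    Option (Fin l) → (Fin (n + 1) → ℝ) → ℝ :=
  pf (fun i => qvR (b i)) (fun i => qvR (G i)) (qvR N1) d e

theorem contDiff_pq (N1 : QP ℝ (n + 1)) (G b : Fin l → QP ℝ (n + 1)) (d e : ℝ)
    (m : Option (Fin l)) : ContDiff ℝ 1 (pq N1 G b d e m) := by
  cases m with
  | none => exact contDiff_const.sub (contDiff_const.mul (contDiff_qvR N1))
  | some i => exact (contDiff_qvR (b i)).add (contDiff_const.mul (contDiff_qvR (G i)))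

theorem prod_qb (N1 : QP ℝ (n + 1)) (G b : Fin l → QP ℝ (n + 1)) (δ ρ : ℝ) {ε : ℝ} (hε : ε < 1)
    (x : Fin (n + 1) → ℝ) :
    ∏ m, qvR (qb N1 G b δ ε ρ m) x =
      ρ⁻¹ * (1 - ε) ^ l * ∏ m, pq N1 G b δ (ε / (1 - ε)) m x := by
  have h1 : (1 - ε) ≠ 0 := by linarith
  rw [Fin.prod_univ_succ, qvR_qb_zero, prod_pf]
  simp only [qvR_qb_succ]
  have h2 : ∀ i : Fin l, (1 - ε) * qvR (b i) x + ε * qvR (G i) x =
      (1 - ε) * (qvR (b i) x + ε / (1 - ε) * qvR (G i) x) := by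
    intro i
    field_simp
  simp only [h2, Finset.prod_mul_distrib, Finset.prod_const, Finset.card_univ, Fintype.card_fin]
  ring

theorem sing_empty_of_nice {q : Tup n l} (h : Nice q) : SingF (f0 q) = ∅ := by
  rw [eq_empty_iff_forall_notMem]
  intro x hx
  exact (h.2.2.1.1 x ⟨hx.1, fun i => hx.2 i.castSucc⟩).2 (hx.2 (Fin.last n))

/-- nonsingular tuples give regular level sets -/
theorem regP_of_sing_empty (N1 : QP ℝ (n + 1)) (G b : Fin l → QP ℝ (n + 1)) {δ ε ρ : ℝ}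
    (hε : ε < 1) (hρ : 0 < ρ) (h : SingF (f0 (tC (qb N1 G b δ ε ρ))) = ∅) :
    RegP (pq N1 G b δ (ε / (1 - ε))) (ρ / (1 - ε) ^ l) := by
  intro x _ hx hf
  have h1 : (1 - ε) ^ l ≠ 0 := pow_ne_zero _ (by linarith)
  have hfun : (fun x => ∏ m, qvR (qb N1 G b δ ε ρ m) x) =
      fun x => ρ⁻¹ * (1 - ε) ^ l * ∏ m, pq N1 G b δ (ε / (1 - ε)) m x := by
    funext y
    exact prod_qb N1 G b δ ρ hε y
  have hm := mem_SingF_of_real (qb N1 G b δ ε ρ) x
    (by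
      rw [prod_qb N1 G b δ ρ hε x, hx]
      field_simp)
    (by
      have hd' : DifferentiableAt ℝ (fun x => ∏ m, pq N1 G b δ (ε / (1 - ε)) m x) x :=
        ((contDiff_prod fun m _ => contDiff_pq N1 G b δ (ε / (1 - ε)) m).differentiable
          one_ne_zero).differentiableAt
      rw [hfun, fderiv_const_mul hd', hf, smul_zero])
  rw [h] at hm
  exact hm

/-- properness -/
theorem isCompact_le_of_posQ {N1 : QP ℝ (n + 1)} (h : PosQ N1) (R : ℝ) :
    IsCompact {x | qvR N1 x ≤ R} := by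
  have hcont : Continuous (qvR N1) := (contDiff_qvR N1 (k := 1)).continuous
  have hcl : IsClosed {x | qvR N1 x ≤ R} := isClosed_le hcont continuous_const
  -- lower bound of the quadratic part
  obtain ⟨c, hc, hq⟩ : ∃ c > 0, ∀ x : Fin (n + 1) → ℝ,
      c * ‖x‖ ^ 2 ≤ ∑ i, ∑ j, N1.1 i j * x i * x j := by
    have hcs : IsCompact (Metric.sphere (0 : Fin (n + 1) → ℝ) 1) := isCompact_sphere _ _
    have hne : (Metric.sphere (0 : Fin (n + 1) → ℝ) 1).Nonempty :=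
      NormedSpace.sphere_nonempty.mpr zero_le_one
    have hqc : Continuous fun x : Fin (n + 1) → ℝ => ∑ i, ∑ j, N1.1 i j * x i * x j := by
      fun_prop
    obtain ⟨x₀, hx₀, hmin⟩ := hcs.exists_isMinOn hne hqc.continuousOn
    have hx₀n : x₀ ≠ 0 := by
      rintro rfl
      simp at hx₀
    refine ⟨_, h.pos x₀ hx₀n, fun x => ?_⟩
    rcases eq_or_ne x 0 with rfl | hx
    · simp
    · have hxn : 0 < ‖x‖ := norm_pos_iff.mpr hx
      have h1 : (‖x‖⁻¹ • x) ∈ Metric.sphere (0 : Fin (n + 1) → ℝ) 1 := by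
        rw [mem_sphere_zero_iff_norm, norm_smul, norm_inv, norm_norm, inv_mul_cancel₀ hxn.ne']
      have h2 : (∑ i, ∑ j, N1.1 i j * x₀ i * x₀ j) ≤
          ∑ i, ∑ j, N1.1 i j * (‖x‖⁻¹ • x) i * (‖x‖⁻¹ • x) j := hmin h1
      have h3 : (∑ i, ∑ j, N1.1 i j * (‖x‖⁻¹ • x) i * (‖x‖⁻¹ • x) j) * ‖x‖ ^ 2 =
          ∑ i, ∑ j, N1.1 i j * x i * x j := by
        simp only [Finset.sum_mul, Pi.smul_apply, smul_eq_mul]
        refine Finset.sum_congr rfl fun i _ => Finset.sum_congr rfl fun j _ => ?_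
        field_simp
      rw [← h3]
      exact mul_le_mul_of_nonneg_right h2 (sq_nonneg _)
  obtain ⟨B, hB0, hB⟩ : ∃ B ≥ 0, ∀ x : Fin (n + 1) → ℝ, |∑ i, N1.2.1 i * x i| ≤ B * ‖x‖ := by
    refine ⟨∑ i, |N1.2.1 i|, Finset.sum_nonneg fun i _ => abs_nonneg _, fun x => ?_⟩
    calc |∑ i, N1.2.1 i * x i| ≤ ∑ i, |N1.2.1 i * x i| := Finset.abs_sum_le_sum_abs _ _
      _ ≤ ∑ i, |N1.2.1 i| * ‖x‖ := by
        refine Finset.sum_le_sum fun i _ => ?_
        rw [abs_mul]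
        exact mul_le_mul_of_nonneg_left (norm_le_pi_norm x i) (abs_nonneg _)
      _ = _ := by rw [Finset.sum_mul]
  refine Metric.isCompact_of_isClosed_isBounded hcl ?_
  refine (Metric.isBounded_iff_subset_closedBall (0 : Fin (n + 1) → ℝ)).mpr
    ⟨max 1 ((B + |R - N1.2.2|) / c), fun x hx => ?_⟩
  rw [mem_closedBall_zero_iff]
  by_contra hcon
  push Not at hcon
  have h1 : 1 < ‖x‖ := (le_max_left _ _).trans_lt hcon
  have h2 : (B + |R - N1.2.2|) / c < ‖x‖ := (le_max_right _ _).trans_lt hcon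
  rw [div_lt_iff₀ hc] at h2
  have h3 := hq x
  have h4 := neg_le_of_abs_le (hB x)
  have h5 : qvR N1 x ≤ R := hx
  have h6 : c * ‖x‖ ^ 2 ≤ B * ‖x‖ + |R - N1.2.2| := by
    have : (∑ i, ∑ j, N1.1 i j * x i * x j) + (∑ i, N1.2.1 i * x i) + N1.2.2 ≤ R := h5
    have := le_abs_self (R - N1.2.2)
    linarith
  have h7 : (B + |R - N1.2.2|) * ‖x‖ < ‖x‖ * c * ‖x‖ :=
    mul_lt_mul_of_pos_right h2 (by linarith)
  nlinarith [abs_nonneg (R - N1.2.2)]

/-- the data of section 1.1 -/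
theorem dat_of_posQ {N1 : QP ℝ (n + 1)} {G : Fin l → QP ℝ (n + 1)} (hN : PosQ N1)
    (hG : ∀ i, PosQ (G i)) (b : Fin l → QP ℝ (n + 1)) :
    Dat (fun i => qvR (b i)) (fun i => qvR (G i)) (qvR N1) where
  b_diff i := contDiff_qvR (b i)
  G_diff i := contDiff_qvR (G i)
  N_diff := contDiff_qvR N1
  G_pos i x := lt_of_lt_of_le one_pos ((hG i).one_le x)
  N_pos x := lt_of_lt_of_le one_pos (hN.one_le x)
  N_proper R := isCompact_le_of_posQ hN R

theorem addT_zero (q : RTup n l) : addT q 0 = q := by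
  funext m
  unfold addT
  split_ifs with h
  · rw [h]
    ext <;> simp
  · rfl

theorem Wset_qb (N1 : QP ℝ (n + 1)) (G b : Fin l → QP ℝ (n + 1)) {δ ε ρ : ℝ}
    (hε : ε < 1) (hρ : 0 < ρ) :
    Wset (qb N1 G b δ ε ρ) 0 = WP (pq N1 G b δ (ε / (1 - ε))) (ρ / (1 - ε) ^ l) := by
  have h1 : 0 < 1 - ε := by linarith
  have h1' : 0 < (1 - ε) ^ l := pow_pos h1 l
  ext x
  have hpos : ∀ i : Fin l, (0 < qvR (qb N1 G b δ ε ρ i.succ) x ↔
      0 < pq N1 G b δ (ε / (1 - ε)) (some i) x) := by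
    intro i
    rw [qvR_qb_succ]
    have : (1 - ε) * qvR (b i) x + ε * qvR (G i) x =
        (1 - ε) * pq N1 G b δ (ε / (1 - ε)) (some i) x := by
      show _ = (1 - ε) * (qvR (b i) x + ε / (1 - ε) * qvR (G i) x)
      field_simp
    rw [this]
    exact mul_pos_iff_of_pos_left h1
  have hprod : (0 < fR 0 0 (addT (qb N1 G b δ ε ρ) 0) x ↔
      ρ / (1 - ε) ^ l < ∏ m, pq N1 G b δ (ε / (1 - ε)) m x) := by
    rw [addT_zero]
    unfold fR
    rw [zero_mul, sub_zero, prod_qb N1 G b δ ρ hε, sub_pos, div_lt_iff₀ h1']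
    rw [mul_assoc, ← div_eq_inv_mul, lt_div_iff₀ hρ, one_mul, mul_comm]
  constructor
  · rintro ⟨hx, hx'⟩
    have hsome : ∀ i, 0 < pq N1 G b δ (ε / (1 - ε)) (some i) x := fun i =>
      (hpos i).1 (hx i.succ (Fin.succ_ne_zero i))
    have hp := hprod.1 hx'
    refine ⟨fun m => ?_, hp⟩
    cases m with
    | some i => exact hsome i
    | none =>
      have h2 : 0 < ∏ i : Fin l, pq N1 G b δ (ε / (1 - ε)) (some i) x :=
        Finset.prod_pos fun i _ => hsome i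
      rw [Fintype.prod_option] at hp
      have h3 : 0 < ρ / (1 - ε) ^ l := div_pos hρ h1'
      exact pos_of_mul_pos_left (h3.trans hp) h2.le
  · rintro ⟨hx, hx'⟩
    refine ⟨fun m hm => ?_, hprod.2 hx'⟩
    obtain ⟨i, rfl⟩ := Fin.exists_succ_eq.mpr hm
    exact (hpos i).2 (hx (some i))

/-- parameters in tilde form -/
theorem Params.tilde {Q : ℝ → ℝ → ℝ → Prop} {d0 : ℝ} {e0 : ℝ → ℝ} (h : Params Q d0 e0) (k : ℕ) :
    Params (fun d e r => Q d (e / (1 + e)) (r / (1 + e) ^ k)) d0 e0 := by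
  have hlt : ∀ e : ℝ, 0 < e → e / (1 + e) < e := fun e he => by
    rw [div_lt_iff₀ (by linarith)]
    nlinarith
  have hmono : ∀ a b : ℝ, 0 < a → a ≤ b → a / (1 + a) ≤ b / (1 + b) := fun a b ha hab => by
    rw [div_le_div_iff₀ (by linarith) (by linarith)]
    nlinarith
  have hr : ∀ r e : ℝ, 0 < r → 0 < e → 0 < r / (1 + e) ^ k ∧ r / (1 + e) ^ k ≤ r := fun r e hr he =>
    ⟨div_pos hr (pow_pos (by linarith) _), div_le_self hr.le (one_le_pow₀ (by linarith))⟩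
  refine ⟨h.d0_pos, h.e0_pos, fun d hd hd0 e1 e2 he1 he12 he2 => ?_, fun d1 d2 hd1 hd12 hd2 => ?_⟩
  · have he2p := he1.trans_le he12
    obtain ⟨r0, hr0, hQ⟩ := h.U1 d hd hd0 (e1 / (1 + e1)) (e2 / (1 + e2))
      (div_pos he1 (by linarith)) (hmono e1 e2 he1 he12) ((hlt e2 he2p).trans he2)
    refine ⟨r0, hr0, fun e he r hr1 hr2 => ?_⟩
    have hep := he1.trans_le he.1
    exact hQ _ ⟨hmono e1 e he1 he.1, hmono e e2 hep he.2⟩ _ (hr r e hr1 hep).1
      ((hr r e hr1 hep).2.trans_lt hr2)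
  · obtain ⟨e1, he1, h1⟩ := h.U2 d1 d2 hd1 hd12 hd2
    refine ⟨e1, he1, fun e he hee => ?_⟩
    obtain ⟨r0, hr0, hQ⟩ := h1 (e / (1 + e)) (div_pos he (by linarith)) ((hlt e he).trans hee)
    exact ⟨r0, hr0, fun d hd r hr1 hr2 => hQ d hd _ (hr r e hr1 he).1
      ((hr r e hr1 he).2.trans_lt hr2)⟩

theorem good_qb {Phi : MvPolynomial (Ix n l) ℂ} {N1 : QP ℝ (n + 1)} {G : Fin l → QP ℝ (n + 1)}
    (hN : PosQ N1) (b : Fin l → QP ℝ (n + 1)) {δ ε ρ : ℝ} (hδ : 0 < δ) (hρ : 0 < ρ)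
    (h1 : eval (cfs (tC (qb N1 G b δ ε ρ))) Phi ≠ 0)
    (h2 : eval (cfs (tC (addT (qb N1 G b δ ε ρ) (-2 / ρ)))) Phi ≠ 0) :
    Good Phi (qb N1 G b δ ε ρ) (-2 / ρ) where
  neg := div_neg_of_neg_of_pos (by norm_num) hρ
  nz := h1
  nz₀ := h2
  empty := by
    rw [eq_empty_iff_forall_notMem]
    rintro x ⟨hx, hx'⟩
    unfold fR at hx'
    rw [zero_mul, sub_zero, sub_pos, Fin.prod_univ_succ] at hx'
    have h3 : ∀ i : Fin l, 0 < qvR (addT (qb N1 G b δ ε ρ) (-2 / ρ) i.succ) x := fun i => by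
      have := hx i.succ (Fin.succ_ne_zero i)
      simpa [addT, Fin.succ_ne_zero] using this
    have h4 : qvR (addT (qb N1 G b δ ε ρ) (-2 / ρ) 0) x < 0 := by
      have h5 : qvR (addT (qb N1 G b δ ε ρ) (-2 / ρ) 0) x = qvR (qb N1 G b δ ε ρ 0) x + -2 / ρ := by
        simp only [addT, if_true, qvR]
        ring
      rw [h5, qvR_qb_zero]
      have h6 : ρ⁻¹ * (1 - δ * qvR N1 x) + -2 / ρ = -(ρ⁻¹ * (1 + δ * qvR N1 x)) := by
        field_simp
        ring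
      rw [h6, neg_lt_zero]
      have := hN.one_le x
      positivity
    have h7 : 0 < ∏ i : Fin l, qvR (addT (qb N1 G b δ ε ρ) (-2 / ρ) i.succ) x :=
      Finset.prod_pos fun i _ => h3 i
    have := mul_neg_of_neg_of_pos h4 h7
    linarith
  compact := by
    have : {x | 0 ≤ qvR (qb N1 G b δ ε ρ 0) x} = {x | qvR N1 x ≤ 1 / δ} := by
      ext x
      simp only [mem_ofPred_eq]
      rw [qvR_qb_zero, mul_nonneg_iff_of_pos_left (inv_pos.mpr hρ), le_div_iff₀ hδ]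
      constructor <;> intro h <;> linarith
    rw [this]
    exact isCompact_le_of_posQ hN _

/-- (1.1) Reduction, in the form of Rec.lean. -/
theorem reduction {Phi : MvPolynomial (Ix n l) ℂ} (hPhi : GoodPhi Phi)
    {N1 : QP ℤ (n + 1)} {G : Fin l → QP ℤ (n + 1)} (hB : GoodBase Phi N1 G)
    (b : Fin l → QP ℝ (n + 1)) :
    Finite (ConnectedComponents (Sset b)) ∧
    ∀ᶠ δ in 𝓝[>] (0 : ℝ), ∀ᶠ ε in 𝓝[>] (0 : ℝ), ∀ᶠ ρ in 𝓝[>] (0 : ℝ),
      Good Phi (qb (qZR N1) (fun i => qZR (G i)) b δ ε ρ) (-2 / ρ) ∧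
      Nat.card (ConnectedComponents (Wset (qb (qZR N1) (fun i => qZR (G i)) b δ ε ρ) 0)) =
        Nat.card (ConnectedComponents (Sset b)) := by
  set N := qZR N1 with hN
  set G' : Fin l → QP ℝ (n + 1) := fun i => qZR (G i) with hG'
  obtain ⟨φ, hφ, hφ'⟩ := exists_phi hB b
  obtain ⟨d0, e0, hP⟩ := exists_Params hφ
  have hPt := hP.tilde l
  have hdat := dat_of_posQ hB.posN hB.posG b
  have hQ : ∀ d e r : ℝ, 0 < d → 0 < e → 0 < r →
      eval (![((r / (1 + e) ^ l : ℝ) : ℂ), ((e / (1 + e) : ℝ) : ℂ), (d : ℂ)] : Fin 3 → ℂ) φ ≠ 0 →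
      RegP (pq N G' b d e) r := by
    intro d e r hd he hr h
    have h1e : 0 < 1 + e := by linarith
    have hρ : 0 < r / (1 + e) ^ l := div_pos hr (pow_pos h1e _)
    have hε : e / (1 + e) < 1 := by rw [div_lt_one h1e]; linarith
    have h1 := (hφ' _ _ _ hρ.ne' h).1
    have h2 := regP_of_sing_empty N G' b hε hρ (sing_empty_of_nice (hPhi _ h1))
    have h3 : e / (1 + e) / (1 - e / (1 + e)) = e := by
      have : 1 - e / (1 + e) = 1 / (1 + e) := by field_simp; ring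
      rw [this]
      field_simp
    have h4 : r / (1 + e) ^ l / (1 - e / (1 + e)) ^ l = r := by
      have : 1 - e / (1 + e) = 1 / (1 + e) := by field_simp; ring
      rw [this, one_div, inv_pow]
      field_simp
    rw [h3, h4] at h2
    exact h2
  have key : ∀ d e : ℝ, 0 < d → d < d0 → 0 < e → e < e0 d → ∃ r0 > 0, ∀ r, 0 < r → r < r0 →
      eval (![((r / (1 + e) ^ l : ℝ) : ℂ), ((e / (1 + e) : ℝ) : ℂ), (d : ℂ)] : Fin 3 → ℂ) φ ≠ 0 ∧
      Finite (ConnectedComponents (Sset b)) ∧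
      Nat.card (ConnectedComponents (WP (pq N G' b d e) r)) =
        Nat.card (ConnectedComponents (Sset b)) := fun d e hd hd0 he he0 =>
    hdat.card_eq hPt hQ hd hd0 he he0
  refine ⟨?_, ?_⟩
  · have h1 : 0 < d0 / 2 := by linarith [hP.d0_pos]
    have h2 : d0 / 2 < d0 := by linarith [hP.d0_pos]
    have h3 := hP.e0_pos _ h1 h2
    obtain ⟨r0, hr0, hr⟩ := key (d0 / 2) (e0 (d0 / 2) / 2) h1 h2 (by linarith) (by linarith)
    exact (hr (r0 / 2) (by linarith) (by linarith)).2.1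
  · filter_upwards [Ioo_mem_nhdsGT hP.d0_pos] with δ hδ
    have he0 := hP.e0_pos δ hδ.1 hδ.2
    filter_upwards [Ioo_mem_nhdsGT (lt_min (half_pos he0) (half_pos one_pos) :
      (0 : ℝ) < min (e0 δ / 2) (1 / 2))] with ε hε
    have hε1 : ε < 1 / 2 := hε.2.trans_le (min_le_right _ _)
    have hε2 : ε < e0 δ / 2 := hε.2.trans_le (min_le_left _ _)
    have h1ε : 0 < 1 - ε := by linarith
    have he : 0 < ε / (1 - ε) := div_pos hε.1 h1ε
    have hele : ε / (1 - ε) < e0 δ := by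
      rw [div_lt_iff₀ h1ε]
      nlinarith [hε.1]
    obtain ⟨r0, hr0, hr⟩ := key δ (ε / (1 - ε)) hδ.1 hδ.2 he hele
    have hpow : 0 < (1 - ε) ^ l := pow_pos h1ε l
    filter_upwards [Ioo_mem_nhdsGT (mul_pos hr0 hpow)] with ρ hρ
    obtain ⟨h1, -, h2⟩ := hr (ρ / (1 - ε) ^ l) (div_pos hρ.1 hpow)
      (by rw [div_lt_iff₀ hpow]; exact hρ.2)
    have h3 : 1 + ε / (1 - ε) = 1 / (1 - ε) := by field_simp; ring
    have h4 : ε / (1 - ε) / (1 + ε / (1 - ε)) = ε := by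
      rw [h3]
      field_simp
    have h5 : ρ / (1 - ε) ^ l / (1 + ε / (1 - ε)) ^ l = ρ := by
      rw [h3, one_div, inv_pow]
      field_simp
    rw [h4, h5] at h1
    obtain ⟨h6, h7⟩ := hφ' ρ ε δ hρ.1.ne' h1
    refine ⟨good_qb hB.posN b hδ.1 hρ.1 h6 h7, ?_⟩
    rw [Wset_qb N G' b (by linarith) hρ.1]
    exact h2

end Pool.Agent.QC.Red
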