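import Mathlib

/-!
# MP_7c50a9_lc, section 1.1: small parameters

A nonzero polynomial in `(rho, eps, delta)` has no zeros for `0 < rho << eps << delta << 1`, with
uniformity in `eps` or `delta` on compact intervals.
-/

namespace Pool.Agent.QC.Red

open MvPolynomial Set Topology

/-- Division by the first variable. -/
theorem exists_lowest {n : ℕ} {φ : MvPolynomial (Fin (n + 1)) ℂ} (hφ : φ ≠ 0) :
    ∃ (j : ℕ) (φ' : MvPolynomial (Fin (n + 1)) ℂ) (φ₀ : MvPolynomial (Fin n) ℂ), φ₀ ≠ 0 ∧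
      φ = X 0 ^ j * φ' ∧ ∀ s : Fin n → ℂ, eval (Fin.cons 0 s : Fin (n + 1) → ℂ) φ' = eval s φ₀ := by
  have hP : finSuccEquiv ℂ n φ ≠ 0 := by
    intro h
    exact hφ ((finSuccEquiv ℂ n).injective (by rw [h, map_zero]))
  obtain ⟨q, hq, hdvd⟩ := Polynomial.exists_eq_pow_rootMultiplicity_mul_and_not_dvd
    (finSuccEquiv ℂ n φ) hP 0
  rw [Polynomial.C_0, sub_zero] at hq hdvd
  refine ⟨Polynomial.rootMultiplicity 0 (finSuccEquiv ℂ n φ), (finSuccEquiv ℂ n).symm q,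
    q.coeff 0, ?_, ?_, ?_⟩
  · rwa [ne_eq, ← Polynomial.X_dvd_iff]
  · apply (finSuccEquiv ℂ n).injective
    rw [map_mul, map_pow, AlgEquiv.apply_symm_apply, finSuccEquiv_X_zero]
    exact hq
  · intro s
    rw [eval_eq_eval_mv_eval', AlgEquiv.apply_symm_apply, ← Polynomial.coeff_zero_eq_eval_zero,
      Polynomial.coeff_map]

/-- Uniform nonvanishing on compact sets. -/
theorem exists_small {n : ℕ} {φ φ' : MvPolynomial (Fin (n + 1)) ℂ} {φ₀ : MvPolynomial (Fin n) ℂ}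
    {j : ℕ} (h : φ = X 0 ^ j * φ')
    (h0 : ∀ s : Fin n → ℂ, eval (Fin.cons 0 s : Fin (n + 1) → ℂ) φ' = eval s φ₀)
    {K : Set (Fin n → ℂ)} (hK : IsCompact K) (hne : ∀ s ∈ K, eval s φ₀ ≠ 0) :
    ∃ r₀ : ℝ, 0 < r₀ ∧ ∀ r ∈ Ioo (0 : ℝ) r₀, ∀ s ∈ K,
      eval (Fin.cons (r : ℂ) s : Fin (n + 1) → ℂ) φ ≠ 0 := by
  have hcont : Continuous fun p : ℝ × (Fin n → ℂ) =>
      eval (Fin.cons (p.1 : ℂ) p.2 : Fin (n + 1) → ℂ) φ' := by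
    refine (MvPolynomial.continuous_eval φ').comp ?_
    refine continuous_pi fun i => ?_
    refine Fin.cases ?_ (fun i => ?_) i
    · simp only [Fin.cons_zero]
      exact Complex.continuous_ofReal.comp continuous_fst
    · simp only [Fin.cons_succ]
      exact (continuous_apply i).comp continuous_snd
  have hopen : IsOpen {p : ℝ × (Fin n → ℂ) |
      eval (Fin.cons (p.1 : ℂ) p.2 : Fin (n + 1) → ℂ) φ' ≠ 0} :=
    isOpen_ne_fun hcont continuous_const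
  obtain ⟨u, v, hu, -, h0u, hKv, huv⟩ := generalized_tube_lemma
    (s := {(0 : ℝ)}) isCompact_singleton hK hopen (by
      rintro ⟨a, s⟩ ⟨ha, hs⟩
      rw [mem_singleton_iff] at ha
      subst ha
      change eval (Fin.cons ((0 : ℝ) : ℂ) s : Fin (n + 1) → ℂ) φ' ≠ 0
      rw [Complex.ofReal_zero, h0]
      exact hne s hs)
  obtain ⟨r₀, hr₀, hball⟩ := Metric.isOpen_iff.mp hu 0 (h0u rfl)
  refine ⟨r₀, hr₀, fun r hr s hs => ?_⟩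
  have hru : r ∈ u := hball (by
    rw [Metric.mem_ball, Real.dist_eq, sub_zero, abs_of_pos hr.1]
    exact hr.2)
  have := huv (mk_mem_prod hru (hKv hs))
  rw [h, map_mul, map_pow, eval_X, Fin.cons_zero]
  exact mul_ne_zero (pow_ne_zero _ (by exact_mod_cast hr.1.ne')) this

/-- Small parameters for a nonzero polynomial in `(rho, eps, delta)`. -/
theorem exists_param {φ : MvPolynomial (Fin 3) ℂ} (hφ : φ ≠ 0) :
    ∃ d₀ : ℝ, 0 < d₀ ∧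
      (∀ d ∈ Ioo (0 : ℝ) d₀, ∃ e₀ : ℝ, 0 < e₀ ∧
        ∀ e₁ e₂ : ℝ, 0 < e₁ → e₂ < e₀ → ∃ r₀ : ℝ, 0 < r₀ ∧ ∀ e ∈ Icc e₁ e₂,
          ∀ r ∈ Ioo (0 : ℝ) r₀, eval (![(r : ℂ), (e : ℂ), (d : ℂ)] : Fin 3 → ℂ) φ ≠ 0) ∧
      (∀ d₁ d₂ : ℝ, 0 < d₁ → d₂ < d₀ → ∃ e₀ : ℝ, 0 < e₀ ∧ ∀ e ∈ Ioo (0 : ℝ) e₀,
        ∃ r₀ : ℝ, 0 < r₀ ∧ ∀ d ∈ Icc d₁ d₂, ∀ r ∈ Ioo (0 : ℝ) r₀,
          eval (![(r : ℂ), (e : ℂ), (d : ℂ)] : Fin 3 → ℂ) φ ≠ 0) := by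
  obtain ⟨j, φ', ψ, hψ, hφ1, hφ2⟩ := exists_lowest hφ
  obtain ⟨k, ψ', χ, hχ, hψ1, hψ2⟩ := exists_lowest hψ
  obtain ⟨m, χ', c, hc, hχ1, hχ2⟩ := exists_lowest hχ
  obtain ⟨d₀, hd₀, hd⟩ := exists_small hχ1 hχ2 (K := {(![] : Fin 0 → ℂ)})
    isCompact_singleton (by
      rintro s - hs
      refine hc (MvPolynomial.funext fun x => ?_)
      rw [Subsingleton.elim x s, hs, map_zero])
  have hd' : ∀ d ∈ Ioo (0 : ℝ) d₀, eval (![(d : ℂ)] : Fin 1 → ℂ) χ ≠ 0 := fun d hd1 =>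
    hd d hd1 _ rfl
  refine ⟨d₀, hd₀, fun d hd1 => ?_, fun d₁ d₂ h1 h2 => ?_⟩
  · obtain ⟨e₀, he₀, he⟩ := exists_small hψ1 hψ2 (K := {(![(d : ℂ)] : Fin 1 → ℂ)})
      isCompact_singleton (by
        rintro s rfl
        exact hd' d hd1)
    refine ⟨e₀, he₀, fun e₁ e₂ h1 h2 => ?_⟩
    have hcont : Continuous fun e : ℝ => (![(e : ℂ), (d : ℂ)] : Fin 2 → ℂ) := by
      refine continuous_pi fun i => ?_
      fin_cases i
      · exact Complex.continuous_ofReal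
      · exact continuous_const
    obtain ⟨r₀, hr₀, hr⟩ := exists_small hφ1 hφ2
      (K := (fun e : ℝ => (![(e : ℂ), (d : ℂ)] : Fin 2 → ℂ)) '' Icc e₁ e₂)
      (isCompact_Icc.image hcont) (by
        rintro s ⟨e, he', rfl⟩
        exact he e ⟨h1.trans_le he'.1, he'.2.trans_lt h2⟩ _ rfl)
    exact ⟨r₀, hr₀, fun e he' r hr' => hr r hr' _ ⟨e, he', rfl⟩⟩
  · have hcont : Continuous fun d : ℝ => (![(d : ℂ)] : Fin 1 → ℂ) := by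
      refine continuous_pi fun i => ?_
      fin_cases i
      exact Complex.continuous_ofReal
    obtain ⟨e₀, he₀, he⟩ := exists_small hψ1 hψ2
      (K := (fun d : ℝ => (![(d : ℂ)] : Fin 1 → ℂ)) '' Icc d₁ d₂)
      (isCompact_Icc.image hcont) (by
        rintro s ⟨d, hd1, rfl⟩
        exact hd' d ⟨h1.trans_le hd1.1, hd1.2.trans_lt h2⟩)
    refine ⟨e₀, he₀, fun e he1 => ?_⟩
    have hcont' : Continuous fun d : ℝ => (![(e : ℂ), (d : ℂ)] : Fin 2 → ℂ) := by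
      refine continuous_pi fun i => ?_
      fin_cases i
      · exact continuous_const
      · exact Complex.continuous_ofReal
    obtain ⟨r₀, hr₀, hr⟩ := exists_small hφ1 hφ2
      (K := (fun d : ℝ => (![(e : ℂ), (d : ℂ)] : Fin 2 → ℂ)) '' Icc d₁ d₂)
      (isCompact_Icc.image hcont') (by
        rintro s ⟨d, hd1, rfl⟩
        exact he e he1 _ ⟨d, hd1, rfl⟩)
    exact ⟨r₀, hr₀, fun d hd1 r hr' => hr r hr' _ ⟨d, hd1, rfl⟩⟩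

/-- Three nested small parameters. -/
theorem exists_param_point {φ : MvPolynomial (Fin 3) ℂ} (hφ : φ ≠ 0) :
    ∃ d₀ : ℝ, 0 < d₀ ∧ ∀ d ∈ Ioo (0 : ℝ) d₀, ∃ e₀ : ℝ, 0 < e₀ ∧ ∀ e ∈ Ioo (0 : ℝ) e₀,
      ∃ r₀ : ℝ, 0 < r₀ ∧ ∀ r ∈ Ioo (0 : ℝ) r₀,
        eval (![(r : ℂ), (e : ℂ), (d : ℂ)] : Fin 3 → ℂ) φ ≠ 0 := by
  obtain ⟨d₀, hd₀, h1, -⟩ := exists_param hφ
  refine ⟨d₀, hd₀, fun d hd => ?_⟩
  obtain ⟨e₀, he₀, he⟩ := h1 d hd
  refine ⟨e₀, he₀, fun e he' => ?_⟩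
  obtain ⟨r₀, hr₀, hr⟩ := he e e he'.1 he'.2
  exact ⟨r₀, hr₀, fun r hr' => hr e ⟨le_rfl, le_rfl⟩ r hr'⟩

end Pool.Agent.QC.Red
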