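import Pool.Agent.QC.S4.Fam

/-!
# MP_7c50a9_lc, section 1.1: topology of nested families

`PiBij V W`: the inclusion `V ⊆ W` is bijective on connected components.
`PiEq S W`: the components of `S` and of `W` correspond through common points.
`nested`: the closed set `S` and the open sets `O d e` of a good nested family have the same
components.
-/

namespace Pool.Agent.QC.Red

open Set Topology Filter

variable {E : Type*} [TopologicalSpace E]

/-- The inclusion of `V` in `W` is bijective on connected components. -/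
structure PiBij (V W : Set E) : Prop where
  sub : V ⊆ W
  surj : ∀ x ∈ W, ∃ y ∈ V, y ∈ connectedComponentIn W x
  inj : ∀ a ∈ V, ∀ b ∈ V, b ∈ connectedComponentIn W a → b ∈ connectedComponentIn V a

/-- `S` and `W` have the same connected components, compared through common points. -/
structure PiEq (S W : Set E) : Prop where
  left : ∀ x ∈ S, ∃ y ∈ S ∩ W, y ∈ connectedComponentIn S x
  right : ∀ x ∈ W, ∃ y ∈ S ∩ W, y ∈ connectedComponentIn W x
  iff : ∀ x ∈ S ∩ W, ∀ y ∈ S ∩ W, (y ∈ connectedComponentIn S x ↔ y ∈ connectedComponentIn W x)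

theorem cc_symm {W : Set E} {a b : E} (h : b ∈ connectedComponentIn W a) :
    a ∈ connectedComponentIn W b := by
  rw [← connectedComponentIn_eq h]
  refine mem_connectedComponentIn ?_
  by_contra ha
  rw [connectedComponentIn_eq_empty ha] at h
  exact h

theorem cc_trans {W : Set E} {a b c : E} (h : b ∈ connectedComponentIn W a)
    (h' : c ∈ connectedComponentIn W b) : c ∈ connectedComponentIn W a := by
  rw [connectedComponentIn_eq h]
  exact h'

theorem cc_mem {W : Set E} {a b : E} (h : b ∈ connectedComponentIn W a) : b ∈ W :=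
  connectedComponentIn_subset _ _ h

namespace PiBij

theorem refl (V : Set E) : PiBij V V :=
  ⟨subset_rfl, fun x hx => ⟨x, hx, mem_connectedComponentIn hx⟩, fun _ _ _ _ h => h⟩

theorem iff {V W : Set E} (h : PiBij V W) {a b : E} (ha : a ∈ V) (hb : b ∈ V) :
    b ∈ connectedComponentIn W a ↔ b ∈ connectedComponentIn V a :=
  ⟨h.inj a ha b hb, fun h' => connectedComponentIn_mono a h.sub h'⟩

theorem trans {V W X : Set E} (h : PiBij V W) (h' : PiBij W X) : PiBij V X := by
  refine ⟨h.sub.trans h'.sub, fun x hx => ?_, fun a ha b hb hab => ?_⟩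
  · obtain ⟨y, hy, hyx⟩ := h'.surj x hx
    obtain ⟨z, hz, hzy⟩ := h.surj y hy
    exact ⟨z, hz, cc_trans hyx (connectedComponentIn_mono y h'.sub hzy)⟩
  · exact h.inj a ha b hb (h'.inj a (h.sub ha) b (h.sub hb) hab)

/-- cancellation on the right -/
theorem of_trans_right {V W X : Set E} (hVW : V ⊆ W) (h : PiBij V X) (h' : PiBij W X) :
    PiBij V W := by
  refine ⟨hVW, fun x hx => ?_, fun a ha b hb hab => ?_⟩
  · obtain ⟨y, hy, hyx⟩ := h.surj x (h'.sub hx)
    exact ⟨y, hy, h'.inj x hx y (hVW hy) hyx⟩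
  · exact h.inj a ha b hb (connectedComponentIn_mono a h'.sub hab)

/-- cancellation on the left -/
theorem of_trans_left {V W X : Set E} (hWX : W ⊆ X) (h : PiBij V W) (h' : PiBij V X) :
    PiBij W X := by
  refine ⟨hWX, fun x hx => ?_, fun a ha b hb hab => ?_⟩
  · obtain ⟨y, hy, hyx⟩ := h'.surj x hx
    exact ⟨y, h.sub hy, hyx⟩
  · obtain ⟨a', ha', haa⟩ := h.surj a ha
    obtain ⟨b', hb', hbb⟩ := h.surj b hb
    have h1 : b' ∈ connectedComponentIn X a' := by
      refine cc_trans (cc_symm (connectedComponentIn_mono a hWX haa)) (cc_trans hab ?_)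
      exact connectedComponentIn_mono b hWX hbb
    have h2 := connectedComponentIn_mono a' h.sub (h'.inj a' ha' b' hb' h1)
    exact cc_trans haa (cc_trans h2 (cc_symm hbb))

theorem piEq {V W : Set E} (h : PiBij V W) : PiEq V W :=
  ⟨fun x hx => ⟨x, ⟨hx, h.sub hx⟩, mem_connectedComponentIn hx⟩,
    fun x hx => by
      obtain ⟨y, hy, hyx⟩ := h.surj x hx
      exact ⟨y, ⟨hy, h.sub hy⟩, hyx⟩,
    fun x hx y hy => (h.iff hx.1 hy.1).symm⟩

end PiBij

theorem mk_eq_mk_iff {S : Set E} {x y : E} (hx : x ∈ S) (hy : y ∈ S) :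
    (ConnectedComponents.mk (⟨x, hx⟩ : S)) = ConnectedComponents.mk ⟨y, hy⟩ ↔
      y ∈ connectedComponentIn S x := by
  rw [connectedComponentIn_eq_image hx]
  rw [eq_comm, ConnectedComponents.coe_eq_coe']
  constructor
  · intro h
    exact ⟨_, h, rfl⟩
  · rintro ⟨z, hz, hzy⟩
    have : z = ⟨y, hy⟩ := Subtype.ext hzy
    rwa [← this]

/-- Equal numbers of components. -/
theorem PiEq.equiv {S W : Set E} (h : PiEq S W) :
    Nonempty (ConnectedComponents S ≃ ConnectedComponents W) := by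
  classical
  let f : (S ∩ W : Set E) → ConnectedComponents S := fun x => ConnectedComponents.mk ⟨x.1, x.2.1⟩
  let g : (S ∩ W : Set E) → ConnectedComponents W := fun x => ConnectedComponents.mk ⟨x.1, x.2.2⟩
  have hf : Function.Surjective f := by
    intro c
    obtain ⟨⟨x, hx⟩, rfl⟩ := ConnectedComponents.surjective_coe c
    obtain ⟨y, hy, hyx⟩ := h.left x hx
    exact ⟨⟨y, hy⟩, ((mk_eq_mk_iff hx hy.1).2 hyx).symm⟩
  have hg : Function.Surjective g := by
    intro c
    obtain ⟨⟨x, hx⟩, rfl⟩ := ConnectedComponents.surjective_coe c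
    obtain ⟨y, hy, hyx⟩ := h.right x hx
    exact ⟨⟨y, hy⟩, ((mk_eq_mk_iff hx hy.2).2 hyx).symm⟩
  have hfg : Setoid.ker f = Setoid.ker g := by
    ext x y
    simp only [Setoid.ker_def, f, g]
    rw [mk_eq_mk_iff x.2.1 y.2.1, mk_eq_mk_iff x.2.2 y.2.2]
    exact h.iff _ x.2 _ y.2
  exact ⟨(Setoid.quotientKerEquivOfSurjective f hf).symm.trans
    ((Quotient.congrRight (fun x y => by
      have := congrArg (fun s : Setoid _ => s x y) hfg
      exact iff_of_eq this)).trans (Setoid.quotientKerEquivOfSurjective g hg))⟩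

theorem PiEq.card {S W : Set E} (h : PiEq S W) :
    Nat.card (ConnectedComponents S) = Nat.card (ConnectedComponents W) := by
  obtain ⟨e⟩ := h.equiv
  exact Nat.card_congr e

theorem PiBij.card {V W : Set E} (h : PiBij V W) :
    Nat.card (ConnectedComponents V) = Nat.card (ConnectedComponents W) := h.piEq.card

/-- A nested intersection of compact preconnected sets is preconnected. -/
theorem isPreconnected_iInter [T2Space E] {ι : Type*} [Nonempty ι] {Z : ι → Set E}
    (hd : Directed (· ⊇ ·) Z) (hc : ∀ i, IsCompact (Z i)) (hp : ∀ i, IsPreconnected (Z i)) :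
    IsPreconnected (⋂ i, Z i) := by
  intro u v hu hv huv ⟨x, hx, hxu⟩ ⟨y, hy, hyv⟩
  by_contra hcon
  rw [not_nonempty_iff_eq_empty] at hcon
  have hC : IsCompact (⋂ i, Z i) := by
    obtain ⟨i⟩ := (inferInstance : Nonempty ι)
    exact (hc i).of_isClosed_subset (isClosed_iInter fun j => (hc j).isClosed) (iInter_subset _ i)
  have hA : IsCompact ((⋂ i, Z i) \ v) := hC.diff hv
  have hB : IsCompact ((⋂ i, Z i) \ u) := hC.diff hu
  have hdis : Disjoint ((⋂ i, Z i) \ v) ((⋂ i, Z i) \ u) := by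
    rw [disjoint_left]
    rintro z ⟨hz, hzv⟩ ⟨-, hzu⟩
    exact (huv hz).elim hzu hzv
  obtain ⟨O₁, O₂, hO1, hO2, h1, h2, hO⟩ := SeparatedNhds.of_isCompact_isCompact hA hB hdis
  obtain ⟨i, hi⟩ : ∃ i, Z i ⊆ O₁ ∪ O₂ := by
    refine exists_subset_nhds_of_isCompact' hd hc (fun i => (hc i).isClosed) fun z hz => ?_
    refine (hO1.union hO2).mem_nhds ?_
    by_cases hzv : z ∈ v
    · right
      refine h2 ⟨hz, fun hzu => ?_⟩
      have : z ∈ (⋂ i, Z i) ∩ (u ∩ v) := ⟨hz, hzu, hzv⟩
      rw [hcon] at this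
      exact this
    · exact Or.inl (h1 ⟨hz, hzv⟩)
  have hx1 : x ∈ O₁ := h1 ⟨hx, fun hxv => by
    have : x ∈ (⋂ i, Z i) ∩ (u ∩ v) := ⟨hx, hxu, hxv⟩
    rw [hcon] at this
    exact this⟩
  have hy2 : y ∈ O₂ := h2 ⟨hy, fun hyu => by
    have : y ∈ (⋂ i, Z i) ∩ (u ∩ v) := ⟨hy, hyu, hyv⟩
    rw [hcon] at this
    exact this⟩
  obtain ⟨z, -, hz⟩ := hp i O₁ O₂ hO1 hO2 hi ⟨x, mem_iInter.mp hx i, hx1⟩
    ⟨y, mem_iInter.mp hy i, hy2⟩
  exact (disjoint_left.mp hO) hz.1 hz.2

/-- Good nested families: `O d e` decreases with `d` and increases with `e`. -/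
structure Nested (S : Set E) (O K : ℝ → ℝ → Set E) (d0 : ℝ) (e0 : ℝ → ℝ) : Prop where
  d0_pos : 0 < d0
  e0_pos : ∀ d, 0 < d → d < d0 → 0 < e0 d
  isOpen : ∀ d e, 0 < d → 0 < e → IsOpen (O d e)
  isCompact : ∀ d e, 0 < d → 0 < e → IsCompact (K d e)
  sub : ∀ d e, 0 < d → 0 < e → O d e ⊆ K d e
  monoK : ∀ d e e', 0 < d → 0 < e → e ≤ e' → K d e ⊆ K d e'
  monoE : ∀ d e e', 0 < d → 0 < e → e ≤ e' → O d e ⊆ O d e'
  monoD : ∀ d d' e, 0 < d → d ≤ d' → 0 < e → O d' e ⊆ O d e
  lim : ∀ d x, 0 < d → (∀ e > 0, x ∈ K d e) →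
    x ∈ S ∧ ∀ d', 0 < d' → d' < d → ∀ e > 0, x ∈ O d' e
  mem : ∀ x ∈ S, ∃ d1 > 0, ∀ d, 0 < d → d < d1 → ∀ e > 0, x ∈ O d e
  indep : ∀ x ∈ S, ∀ d e, 0 < d → 0 < e → x ∈ O d e → ∀ e' > 0, x ∈ O d e'
  bijE : ∀ d, 0 < d → d < d0 → ∀ e e', 0 < e → e ≤ e' → e' < e0 d → PiBij (O d e) (O d e')
  bijD : ∀ d d', 0 < d → d ≤ d' → d' < d0 → ∃ e1 > 0, ∀ e, 0 < e → e < e1 →
    PiBij (O d' e) (O d e)

namespace Nested

variable {S : Set E} {O K : ℝ → ℝ → Set E} {d0 : ℝ} {e0 : ℝ → ℝ}

/-- every component of `O d e` meets `S` -/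
theorem exists_mem [T2Space E] [LocallyConnectedSpace E] (h : Nested S O K d0 e0) {d e : ℝ}
    (hd : 0 < d) (hd0 : d < d0) (he : 0 < e) (he0 : e < e0 d) {x : E} (hx : x ∈ O d e) :
    ∃ y ∈ S ∩ O d e, y ∈ connectedComponentIn (O d e) x := by
  set d2 := (d + d0) / 2 with hd2
  have h1 : d < d2 := by rw [hd2]; linarith
  have h2 : d2 < d0 := by rw [hd2]; linarith
  have hd2p : 0 < d2 := hd.trans h1
  obtain ⟨e1, he1, hbij⟩ := h.bijD d d2 hd h1.le h2
  set e2 := min e1 e with he2
  have he2p : 0 < e2 := lt_min he1 he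
  have hb : ∀ e', 0 < e' → e' < e2 → PiBij (O d2 e') (O d e) := fun e' h' h'' =>
    (hbij e' h' (h''.trans_le (min_le_left _ _))).trans
      (h.bijE d hd hd0 e' e h' (h''.le.trans (min_le_right _ _)) he0)
  have : Nonempty (Ioo 0 e2) := ⟨⟨e2 / 2, by positivity, by linarith⟩⟩
  have hne : (⋂ r : Ioo 0 e2, K d2 r ∩ closure (connectedComponentIn (O d e) x)).Nonempty := by
    refine IsCompact.nonempty_iInter_of_directed_nonempty_isCompact_isClosed _ ?_ ?_ ?_ ?_
    · intro r t
      refine ⟨⟨min r.1 t.1, lt_min r.2.1 t.2.1, (min_le_left _ _).trans_lt r.2.2⟩, ?_, ?_⟩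
      · exact inter_subset_inter_left _ (h.monoK d2 _ _ hd2p (lt_min r.2.1 t.2.1)
          (min_le_left _ _))
      · exact inter_subset_inter_left _ (h.monoK d2 _ _ hd2p (lt_min r.2.1 t.2.1)
          (min_le_right _ _))
    · intro r
      obtain ⟨y, hy, hyx⟩ := (hb r r.2.1 r.2.2).surj x hx
      exact ⟨y, h.sub d2 r hd2p r.2.1 hy, subset_closure hyx⟩
    · intro r
      exact (h.isCompact d2 r hd2p r.2.1).inter_right isClosed_closure
    · intro r
      exact (h.isCompact d2 r hd2p r.2.1).isClosed.inter isClosed_closure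
  obtain ⟨y, hy⟩ := hne
  have hyK : ∀ e' > 0, y ∈ K d2 e' := fun e' he' => by
    by_cases hlt : e' < e2
    · exact (mem_iInter.mp hy ⟨e', he', hlt⟩).1
    · have := (mem_iInter.mp hy ⟨e2 / 2, by positivity, by linarith⟩).1
      exact h.monoK d2 _ _ hd2p (by positivity) (by linarith [not_lt.mp hlt]) this
  obtain ⟨hyS, hyO⟩ := h.lim d2 y hd2p hyK
  have hyd : y ∈ O d e := hyO d hd h1 e he
  have hycl := (mem_iInter.mp hy ⟨e2 / 2, by positivity, by linarith⟩).2
  exact ⟨y, ⟨hyS, hyd⟩, S4.mem_of_mem_closure_component (h.isOpen d e hd he) hyd hycl⟩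

/-- two points of `S` in the same component of `O d e` are in the same component of `S` -/
theorem join [T2Space E] (h : Nested S O K d0 e0) {d e : ℝ}
    (hd : 0 < d) (hd0 : d < d0) (he : 0 < e) (he0 : e < e0 d) {x y : E} (hxS : x ∈ S)
    (hx : x ∈ O d e) (hyS : y ∈ S) (hy : y ∈ O d e) (hxy : y ∈ connectedComponentIn (O d e) x) :
    y ∈ connectedComponentIn S x := by
  have : Nonempty (Ioo 0 e) := ⟨⟨e / 2, by positivity, by linarith⟩⟩
  have hsub : ∀ r : Ioo 0 e, closure (connectedComponentIn (O d r) x) ⊆ K d r := fun r =>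
    closure_minimal ((connectedComponentIn_subset _ _).trans (h.sub d r hd r.2.1))
      (h.isCompact d r hd r.2.1).isClosed
  have hp : IsPreconnected (⋂ r : Ioo 0 e, closure (connectedComponentIn (O d r) x)) := by
    refine isPreconnected_iInter ?_ ?_ ?_
    · intro r t
      refine ⟨⟨min r.1 t.1, lt_min r.2.1 t.2.1, (min_le_left _ _).trans_lt r.2.2⟩, ?_, ?_⟩
      · exact closure_mono (connectedComponentIn_mono x (h.monoE d _ _ hd (lt_min r.2.1 t.2.1)
          (min_le_left _ _)))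
      · exact closure_mono (connectedComponentIn_mono x (h.monoE d _ _ hd (lt_min r.2.1 t.2.1)
          (min_le_right _ _)))
    · intro r
      exact (h.isCompact d r hd r.2.1).of_isClosed_subset isClosed_closure (hsub r)
    · intro r
      exact isPreconnected_connectedComponentIn.closure
  have hxm : x ∈ ⋂ r : Ioo 0 e, closure (connectedComponentIn (O d r) x) :=
    mem_iInter.mpr fun r => subset_closure
      (mem_connectedComponentIn (h.indep x hxS d e hd he hx r r.2.1))
  have hym : y ∈ ⋂ r : Ioo 0 e, closure (connectedComponentIn (O d r) x) :=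
    mem_iInter.mpr fun r => subset_closure
      ((h.bijE d hd hd0 r e r.2.1 r.2.2.le he0).inj x (h.indep x hxS d e hd he hx r r.2.1) y
        (h.indep y hyS d e hd he hy r r.2.1) hxy)
  refine hp.subset_connectedComponentIn hxm (fun z hz => ?_) hym
  refine (h.lim d z hd fun e' he' => ?_).1
  by_cases hlt : e' < e
  · exact hsub ⟨e', he', hlt⟩ (mem_iInter.mp hz ⟨e', he', hlt⟩)
  · have := hsub ⟨e / 2, by positivity, by linarith⟩
      (mem_iInter.mp hz ⟨e / 2, by positivity, by linarith⟩)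
    exact h.monoK d _ _ hd (by positivity) (by linarith [not_lt.mp hlt]) this

/-- The relation of being joined in `O d e` for small `e` does not depend on `d`. -/
theorem change (h : Nested S O K d0 e0) {d d' : ℝ}
    (hd : 0 < d) (hdd : d ≤ d') (hd0' : d' < d0) :
    ∃ e1 > 0, ∀ x y, x ∈ S → y ∈ S → ∀ e, 0 < e → e < e1 → x ∈ O d' e → y ∈ O d' e →
      (y ∈ connectedComponentIn (O d' e) x ↔ y ∈ connectedComponentIn (O d e) x) := by
  obtain ⟨e1, he1, hbij⟩ := h.bijD d d' hd hdd hd0'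
  exact ⟨e1, he1, fun x y _ _ e he he' hx hy => ((hbij e he he').iff hx hy).symm⟩

/-- Main topological theorem. -/
theorem piEq [T2Space E] [LocallyConnectedSpace E] (h : Nested S O K d0 e0) {d e : ℝ}
    (hd : 0 < d) (hd0 : d < d0) (he : 0 < e) (he0 : e < e0 d) : PiEq S (O d e) := by
  -- independence of `e`
  have indep : ∀ d, 0 < d → d < d0 → ∀ e e', 0 < e → e < e0 d → 0 < e' → e' < e0 d →
      ∀ x ∈ S, ∀ y ∈ S, x ∈ O d e → y ∈ O d e → y ∈ connectedComponentIn (O d e) x →
        y ∈ connectedComponentIn (O d e') x := by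
    intro d hd hd0 e e' he he0 he' he0' x hxS y hyS hx hy hxy
    rcases le_total e e' with hle | hle
    · exact connectedComponentIn_mono x (h.monoE d e e' hd he hle) hxy
    · exact (h.bijE d hd hd0 e' e he' hle he0).inj x (h.indep x hxS d e hd he hx e' he') y
        (h.indep y hyS d e hd he hy e' he') hxy
  -- the forward direction
  have forward : ∀ x ∈ S, ∀ y ∈ S, x ∈ O d e → y ∈ O d e → y ∈ connectedComponentIn S x →
      y ∈ connectedComponentIn (O d e) x := by
    intro x hxS y hyS hx hy hxy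
    let R : E → Prop := fun z => ∃ d', 0 < d' ∧ d' ≤ d ∧ ∃ e1 > 0, ∀ e', 0 < e' → e' < e1 →
      z ∈ connectedComponentIn (O d' e') x
    -- a criterion for `R`
    have hR : ∀ z ∈ S, ∀ d', 0 < d' → d' ≤ d → z ∈ O d' e → R z →
        ∃ e1 > 0, ∀ e', 0 < e' → e' < e1 → z ∈ connectedComponentIn (O d' e') x := by
      rintro z hz d' hd' hdd' hzO ⟨d'', hd'', hdd'', e1, he1, hz1⟩
      have hxO : ∀ e' > 0, x ∈ O d' e' := fun e' he' =>
        h.monoD d' d e' hd' hdd' he' (h.indep x hxS d e hd he hx e' he')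
      have hzO' : ∀ e' > 0, z ∈ O d' e' := fun e' he' => h.indep z hz d' e hd' he hzO e' he'
      rcases le_total d' d'' with hle | hle
      · refine ⟨e1, he1, fun e' he' he'1 => ?_⟩
        exact connectedComponentIn_mono x (h.monoD d' d'' e' hd' hle he') (hz1 e' he' he'1)
      · obtain ⟨e2, he2, hb⟩ := h.bijD d'' d' hd'' hle (hdd'.trans_lt hd0)
        refine ⟨min e1 e2, lt_min he1 he2, fun e' he' he'1 => ?_⟩
        exact (hb e' he' (he'1.trans_le (min_le_right _ _))).inj x (hxO e' he') z (hzO' e' he')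
          (hz1 e' he' (he'1.trans_le (min_le_left _ _)))
    -- good parameters for a point of `S`
    have hgood : ∀ z ∈ S, ∃ d', 0 < d' ∧ d' ≤ d ∧ ∀ e' > 0, z ∈ O d' e' := by
      intro z hz
      obtain ⟨d1, hd1, hz1⟩ := h.mem z hz
      refine ⟨min (d1 / 2) d, lt_min (by positivity) hd, min_le_right _ _, fun e' he' => ?_⟩
      exact hz1 _ (lt_min (by positivity) hd) ((min_le_left _ _).trans_lt (by linarith)) e' he'
    -- neighbourhoods in which `R` is constant
    have hnbhd : ∀ z ∈ S, ∃ N, IsOpen N ∧ z ∈ N ∧ ∀ w ∈ S ∩ N, (R w ↔ R z) := by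
      intro z hz
      obtain ⟨d', hd', hdd', hzO⟩ := hgood z hz
      have hd0' : d' < d0 := hdd'.trans_lt hd0
      have hepos := h.e0_pos d' hd' hd0'
      set e2 := e0 d' / 2 with he2
      have he2p : 0 < e2 := by positivity
      refine ⟨connectedComponentIn (O d' e2) z, (h.isOpen d' e2 hd' he2p).connectedComponentIn,
        mem_connectedComponentIn (hzO e2 he2p), ?_⟩
      rintro w ⟨hw, hwz⟩
      have hwO2 : w ∈ O d' e2 := cc_mem hwz
      have hwO : ∀ e' > 0, w ∈ O d' e' := h.indep w hw d' e2 hd' he2p hwO2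
      have hwz' : ∀ e', 0 < e' → e' < e0 d' → w ∈ connectedComponentIn (O d' e') z :=
        fun e' he' he'0 => indep d' hd' hd0' e2 e' he2p (by linarith) he' he'0 z hz w hw
          (hzO e2 he2p) hwO2 hwz
      constructor
      · intro hRw
        obtain ⟨e1, he1, h1⟩ := hR w hw d' hd' hdd' (hwO e he) hRw
        refine ⟨d', hd', hdd', min e1 (e0 d'), lt_min he1 hepos, fun e' he' he'1 => ?_⟩
        exact cc_trans (h1 e' he' (he'1.trans_le (min_le_left _ _)))
          (cc_symm (hwz' e' he' (he'1.trans_le (min_le_right _ _))))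
      · intro hRz
        obtain ⟨e1, he1, h1⟩ := hR z hz d' hd' hdd' (hzO e he) hRz
        refine ⟨d', hd', hdd', min e1 (e0 d'), lt_min he1 hepos, fun e' he' he'1 => ?_⟩
        exact cc_trans (h1 e' he' (he'1.trans_le (min_le_left _ _)))
          (hwz' e' he' (he'1.trans_le (min_le_right _ _)))
    have hRx : R x := ⟨d, hd, le_rfl, 1, one_pos, fun e' he' _ =>
      mem_connectedComponentIn (h.indep x hxS d e hd he hx e' he')⟩
    -- `R` holds on the component of `x`
    have hRy : R y := by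
      by_contra hcon
      choose! N hNo hzN hN using hnbhd
      set u := ⋃ z ∈ {z | z ∈ S ∧ R z}, N z with hu
      set v := ⋃ z ∈ {z | z ∈ S ∧ ¬ R z}, N z with hv
      have huo : IsOpen u := isOpen_biUnion fun z hz => hNo z hz.1
      have hvo : IsOpen v := isOpen_biUnion fun z hz => hNo z hz.1
      have hpre : IsPreconnected (connectedComponentIn S x) := isPreconnected_connectedComponentIn
      have hsub : connectedComponentIn S x ⊆ u ∪ v := by
        intro z hz
        have hzS := cc_mem hz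
        by_cases hRz : R z
        · exact Or.inl (mem_biUnion (show z ∈ {z | z ∈ S ∧ R z} from ⟨hzS, hRz⟩) (hzN z hzS))
        · exact Or.inr (mem_biUnion (show z ∈ {z | z ∈ S ∧ ¬ R z} from ⟨hzS, hRz⟩) (hzN z hzS))
      obtain ⟨z, hz, hzu, hzv⟩ := hpre u v huo hvo hsub
        ⟨x, mem_connectedComponentIn hxS,
          mem_biUnion (show x ∈ {z | z ∈ S ∧ R z} from ⟨hxS, hRx⟩) (hzN x hxS)⟩
        ⟨y, hxy, mem_biUnion (show y ∈ {z | z ∈ S ∧ ¬ R z} from ⟨hyS, hcon⟩) (hzN y hyS)⟩
      have hzS := cc_mem hz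
      obtain ⟨a, ha, hza⟩ := mem_iUnion₂.mp hzu
      obtain ⟨b, hb, hzb⟩ := mem_iUnion₂.mp hzv
      have h1 : R z := (hN a ha.1 z ⟨hzS, hza⟩).2 ha.2
      exact hb.2 ((hN b hb.1 z ⟨hzS, hzb⟩).1 h1)
    obtain ⟨e1, he1, h1⟩ := hR y hyS d hd le_rfl hy hRy
    have hm : 0 < min e1 e := lt_min he1 he
    have h2 := h1 (min e1 e / 2) (by positivity)
      (lt_of_lt_of_le (by linarith) (min_le_left e1 e))
    exact connectedComponentIn_mono x (h.monoE d _ _ hd (by positivity)
      ((by linarith : min e1 e / 2 ≤ min e1 e).trans (min_le_right _ _))) h2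
  refine ⟨fun z hz => ?_, fun x hx => h.exists_mem hd hd0 he he0 hx, ?_⟩
  · -- every component of `S` meets `O d e`
    obtain ⟨d1, hd1, hz1⟩ := h.mem z hz
    set d' := min (d1 / 2) d with hd'
    have hd'p : 0 < d' := lt_min (by positivity) hd
    have hdd' : d' ≤ d := min_le_right _ _
    have hzO : ∀ e' > 0, z ∈ O d' e' := fun e' he' =>
      hz1 _ hd'p ((min_le_left _ _).trans_lt (by linarith)) e' he'
    have hd0' : d' < d0 := hdd'.trans_lt hd0
    have hepos := h.e0_pos d' hd'p hd0'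
    obtain ⟨e1, he1, hb⟩ := h.bijD d' d hd'p hdd' hd0
    set e' := min (min e1 (e0 d')) e / 2 with he'
    have hmp : 0 < min (min e1 (e0 d')) e := lt_min (lt_min he1 hepos) he
    have he'p : 0 < e' := by positivity
    have hle : e' < min (min e1 (e0 d')) e := by rw [he']; linarith
    have he'1 : e' < e1 := (hle.trans_le (min_le_left _ _)).trans_le (min_le_left _ _)
    have he'0 : e' < e0 d' := (hle.trans_le (min_le_left _ _)).trans_le (min_le_right _ _)
    have he'e : e' < e := hle.trans_le (min_le_right _ _)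
    obtain ⟨x, hx, hxz⟩ := (hb e' he'p he'1).surj z (hzO e' he'p)
    obtain ⟨y, ⟨hyS, hyO⟩, hyx⟩ := h.exists_mem hd hd0 he'p (he'e.trans he0) hx
    have hyz : y ∈ connectedComponentIn (O d' e') z :=
      cc_trans hxz (connectedComponentIn_mono x (h.monoD d' d e' hd'p hdd' he'p) hyx)
    exact ⟨y, ⟨hyS, h.monoE d e' e hd he'p he'e.le hyO⟩,
      h.join hd'p hd0' he'p he'0 hz (hzO e' he'p) hyS (cc_mem hyz) hyz⟩
  · rintro x ⟨hxS, hx⟩ y ⟨hyS, hy⟩
    exact ⟨forward x hxS y hyS hx hy, h.join hd hd0 he he0 hxS hx hyS hy⟩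

end Nested

end Pool.Agent.QC.Red
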